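import Mathlib
import Pool.Agent.MP_0641e2_an.Defs
import Pool.Agent.MP_1a2790_an.Jwc

section

/-! The infinitesimal generator of a semigroup. -/

open Complex Set Filter Topology Metric MeasureTheory

noncomputable section

namespace Pool.Agent.MP_0641e2_an

variable {φ : ℝ → ℂ → ℂ}

theorem IsSemigroup.cont_at (h : IsSemigroup φ) {z : ℂ} (hz : z ∈ ball (0 : ℂ) 1) :
    ContinuousOn (fun s => φ s z) (Ici 0) := fun t ht => (h.cont t ht).tendsto_at hz

theorem IsSemigroup.cont_deriv (h : IsSemigroup φ) {z : ℂ} (hz : z ∈ ball (0 : ℂ) 1) :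
    ContinuousOn (fun s => deriv (φ s) z) (Ici 0) := fun t ht =>
  ((h.cont t ht).deriv (eventually_mem_nhdsWithin.mono fun s hs => h.holo s hs)
    isOpen_ball).tendsto_at hz

theorem IsSemigroup.avg_deriv (h : IsSemigroup φ) {δ : ℝ} (hδ : 0 ≤ δ) {z : ℂ}
    (hz : z ∈ ball (0 : ℂ) 1) :
    HasDerivAt (fun x => ∫ s in (0 : ℝ)..δ, φ s x) (∫ s in (0 : ℝ)..δ, deriv (φ s) z) z := by
  have hz' : ‖z‖ < 1 := mem_ball_zero_iff.1 hz
  obtain ⟨R, hR⟩ : ∃ R, R = (1 - ‖z‖) / 2 := ⟨_, rfl⟩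
  have hR0 : 0 < R := by rw [hR]; linarith
  have sub : ∀ x ∈ ball z R, ball x R ⊆ ball (0 : ℂ) 1 := fun x hx y hy => by
    rw [mem_ball, dist_eq_norm] at hx hy
    rw [mem_ball_zero_iff]
    have : y = (y - x) + (x - z) + z := by ring
    have h1 := norm_add₃_le (a := y - x) (b := x - z) (c := z)
    rw [← this] at h1
    linarith
  have mem : ∀ x ∈ ball z R, x ∈ ball (0 : ℂ) 1 := fun x hx => sub x hx (mem_ball_self hR0)
  have hI : uIoc 0 δ ⊆ Ici 0 := by
    rw [uIoc_of_le hδ]; exact fun s hs => hs.1.le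
  have hI' : uIcc 0 δ ⊆ Ici 0 := by
    rw [uIcc_of_le hδ]; exact fun s hs => hs.1
  refine (intervalIntegral.hasDerivAt_integral_of_dominated_loc_of_deriv_le
    (F := fun x s => φ s x) (F' := fun x s => deriv (φ s) x) (bound := fun _ => 2 / R)
    (ball_mem_nhds z hR0) ?_ ((h.cont_at hz).mono hI').intervalIntegrable
    (((h.cont_deriv hz).mono hI).aestronglyMeasurable measurableSet_uIoc) ?_
    intervalIntegrable_const ?_).2
  · filter_upwards [ball_mem_nhds z hR0] with x hx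
    exact ((h.cont_at (mem x hx)).mono hI).aestronglyMeasurable measurableSet_uIoc
  · refine Eventually.of_forall fun s hs x hx => ?_
    refine norm_deriv_le_div_of_mapsTo_ball ((h.holo s (hI hs)).mono (sub x hx)) (fun y hy => ?_) hR0
    have a := mem_ball_zero_iff.1 (h.maps s (hI hs) (sub x hx hy))
    have b := mem_ball_zero_iff.1 (h.maps s (hI hs) (mem x hx))
    rw [mem_closedBall, dist_eq_norm]
    linarith [norm_sub_le (φ s y) (φ s x)]
  · exact Eventually.of_forall fun s hs x hx =>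
      ((h.holo s (hI hs)).differentiableAt (isOpen_ball.mem_nhds (mem x hx))).hasDerivAt

theorem of_comp {Ψ : ℂ → ℂ} {g : ℝ → ℂ} {D d : ℂ} {t : ℝ} {S : Set ℝ} (hΨ : HasDerivAt Ψ D (g t))
    (hD : D ≠ 0) (hg : ContinuousWithinAt g S t) (hc : HasDerivWithinAt (fun s => Ψ (g s)) d S t) :
    HasDerivWithinAt g (d / D) S t := by
  rw [hasDerivWithinAt_iff_tendsto_slope] at hc ⊢
  have h1 : ContinuousAt (dslope Ψ (g t)) (g t) := continuousAt_dslope_same.2 hΨ.differentiableAt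
  have h2 : Tendsto (fun s => dslope Ψ (g t) (g s)) (𝓝[S \ {t}] t) (𝓝 D) := by
    have := h1.tendsto.comp (hg.mono (sdiff_subset (t := {t}))).tendsto
    rwa [dslope_same, hΨ.deriv] at this
  refine (hc.div h2 hD).congr' ?_
  filter_upwards [h2.eventually_ne hD] with s hs
  have := sub_smul_dslope Ψ (g t) (g s)
  simp only [Pi.div_apply, slope_def_module]
  rw [← this, div_eq_iff hs, smul_eq_mul, smul_mul_assoc]

theorem IsSemigroup.local_deriv (h : IsSemigroup φ) {δ t : ℝ} (hδ : 0 ≤ δ) (ht : 0 ≤ t) {z : ℂ}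
    (hz : z ∈ ball (0 : ℂ) 1) (hD : deriv (fun x => ∫ s in (0 : ℝ)..δ, φ s x) (φ t z) ≠ 0) :
    HasDerivWithinAt (fun s => φ s z)
      ((φ δ (φ t z) - φ t z) / deriv (fun x => ∫ s in (0 : ℝ)..δ, φ s x) (φ t z)) (Ici 0) t := by
  refine of_comp (h.avg_deriv hδ (h.maps t ht hz)).differentiableAt.hasDerivAt hD
    (h.cont_at hz t ht) ?_
  have hc : Continuous fun u : ℝ => φ (max u 0) z :=
    (h.cont_at hz).comp_continuous (by fun_prop) fun u => le_max_right u 0
  have hA : ∀ u, HasDerivAt (fun u => ∫ s in (0 : ℝ)..u, φ (max s 0) z) (φ (max u 0) z) u :=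
    fun u => (hc.integral_hasStrictDerivAt 0 u).hasDerivAt
  have h1 := ((hA (δ + t)).scomp t ((hasDerivAt_id t).const_add δ)).sub (hA t)
  rw [one_smul, max_eq_left ht, max_eq_left (add_nonneg hδ ht), h.add t δ ht hδ z hz] at h1
  have key : ∀ s, 0 ≤ s → ∫ u in (0 : ℝ)..δ, φ u (φ s z) =
      (∫ u in (0 : ℝ)..δ + s, φ (max u 0) z) - ∫ u in (0 : ℝ)..s, φ (max u 0) z := by
    intro s hs
    rw [intervalIntegral.integral_interval_sub_left (hc.intervalIntegrable _ _)
      (hc.intervalIntegrable _ _)]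
    have := intervalIntegral.integral_comp_add_right (a := 0) (b := δ)
      (fun u => φ (max u 0) z) s
    rw [zero_add] at this
    rw [← this]
    refine intervalIntegral.integral_congr fun u hu => ?_
    rw [uIcc_of_le hδ] at hu
    simp only [max_eq_left (add_nonneg hu.1 hs), h.add s u hs hu.1 z hz]
  exact h1.hasDerivWithinAt.congr key (key t ht)

theorem IsSemigroup.exists_delta (h : IsSemigroup φ) {z : ℂ} (hz : z ∈ ball (0 : ℂ) 1) :
    ∃ δ : ℝ, 0 ≤ δ ∧ deriv (fun x => ∫ s in (0 : ℝ)..δ, φ s x) z ≠ 0 := by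
  have h0 : deriv (φ 0) z = 1 := by
    have : φ 0 =ᶠ[𝓝 z] id := by
      filter_upwards [isOpen_ball.mem_nhds hz] with x hx using h.zero x hx
    rw [this.deriv_eq, deriv_id]
  have h1 : ContinuousOn (fun s => (deriv (φ s) z).re) (Ici 0) :=
    continuous_re.comp_continuousOn (h.cont_deriv hz)
  have h2 : ∀ᶠ s in 𝓝[Ici 0] (0 : ℝ), 0 < (deriv (φ s) z).re :=
    (h1 0 self_mem_Ici).eventually (lt_mem_nhds (by simp [h0]))
  obtain ⟨δ, hδ, hs⟩ := (mem_nhdsGE_iff_exists_Icc_subset).1 h2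
  have hI' : uIcc 0 δ ⊆ Ici 0 := by
    rw [uIcc_of_le hδ.le]; exact fun s hs => hs.1
  refine ⟨δ, hδ.le, ?_⟩
  rw [(h.avg_deriv hδ.le hz).deriv]
  intro e
  have a := reCLM.intervalIntegral_comp_comm ((h.cont_deriv hz).mono hI').intervalIntegrable
    (μ := volume)
  rw [e, map_zero] at a
  have b := intervalIntegral.intervalIntegral_pos_of_pos_on (f := fun s => (deriv (φ s) z).re)
    (h1.mono hI').intervalIntegrable (fun s hs' => hs (Ioo_subset_Icc_self hs')) hδ
  exact b.ne' a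

theorem IsSemigroup.exists_gen (h : IsSemigroup φ) : ∃ G : ℂ → ℂ,
    DifferentiableOn ℂ G (ball 0 1) ∧ ∀ z ∈ ball (0 : ℂ) 1, ∀ t, 0 ≤ t →
      HasDerivWithinAt (fun s => φ s z) (G (φ t z)) (Ici 0) t := by
  have key : ∀ δ, 0 ≤ δ → ∀ z ∈ ball (0 : ℂ) 1,
      deriv (fun x => ∫ s in (0 : ℝ)..δ, φ s x) z ≠ 0 → derivWithin (fun s => φ s z) (Ici 0) 0 =
        (φ δ z - z) / deriv (fun x => ∫ s in (0 : ℝ)..δ, φ s x) z := fun δ hδ z hz hD => by
    have := h.local_deriv hδ le_rfl hz (by rwa [h.zero z hz])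
    rw [h.zero z hz] at this
    exact this.derivWithin (uniqueDiffOn_Ici 0 0 self_mem_Ici)
  refine ⟨fun z => derivWithin (fun s => φ s z) (Ici 0) 0, fun z hz => ?_, fun z hz t ht => ?_⟩
  · obtain ⟨δ, hδ, hD⟩ := h.exists_delta hz
    have h1 : DifferentiableOn ℂ (fun x => ∫ s in (0 : ℝ)..δ, φ s x) (ball 0 1) := fun x hx =>
      (h.avg_deriv hδ hx).differentiableAt.differentiableWithinAt
    have h2 := ((h1.deriv isOpen_ball).differentiableAt (isOpen_ball.mem_nhds hz))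
    have h3 := ((((h.holo δ hδ).differentiableAt (isOpen_ball.mem_nhds hz)).sub
      differentiableAt_id).div h2 hD)
    refine (h3.congr_of_eventuallyEq ?_).differentiableWithinAt
    filter_upwards [isOpen_ball.mem_nhds hz, h2.continuousAt.eventually_ne hD] with x hx hx'
    exact key δ hδ x hx hx'
  · obtain ⟨δ, hδ, hD⟩ := h.exists_delta (h.maps t ht hz)
    have := h.local_deriv hδ ht hz hD
    rwa [← key δ hδ _ (h.maps t ht hz) hD] at this

end Pool.Agent.MP_0641e2_an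

end
end

section

/-! An elementary inequality for the arctangent. -/

open Real Set

noncomputable section

namespace Pool.Agent.MP_0641e2_an

/-- the inverse cotangent -/
def acot (u : ℝ) : ℝ := π / 2 - arctan u

/-- an auxiliary function -/
def JJ (u : ℝ) : ℝ := (1 + u ^ 2) * acot u - u

theorem acot_pos (u : ℝ) : 0 < acot u := sub_pos.2 (arctan_lt_pi_div_two u)

theorem acot_neg (u : ℝ) : acot (-u) = π - acot u := by
  simp only [acot, arctan_neg]; ring

theorem acot_le {u : ℝ} (h : 0 ≤ u) : acot u ≤ π / 2 := by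
  have := arctan_nonneg.2 h
  simp only [acot]; linarith

theorem acot_ge {u : ℝ} (h : u ≤ 0) : π / 2 ≤ acot u := by
  have := arctan_nonneg.2 (neg_nonneg.2 h)
  rw [arctan_neg] at this
  simp only [acot]; linarith

theorem arctan_le {t : ℝ} (h : 0 ≤ t) : arctan t ≤ t := by
  have := Real.le_tan (arctan_nonneg.2 h) (arctan_lt_pi_div_two t)
  rwa [tan_arctan] at this

theorem acot_inv {u : ℝ} (h : 0 < u) : acot u = arctan u⁻¹ := (arctan_inv_of_pos h).symm

theorem mul_acot_le (u : ℝ) : u * acot u ≤ 1 := by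
  rcases le_or_gt u 0 with h | h
  · have := mul_nonneg (neg_nonneg.2 h) (acot_pos u).le
    linarith
  · rw [acot_inv h]
    calc u * arctan u⁻¹ ≤ u * u⁻¹ := by
          gcongr; exact arctan_le (inv_pos.2 h).le
      _ = 1 := mul_inv_cancel₀ h.ne'

theorem le_arctan {t : ℝ} (h : 0 ≤ t) : 2 * t ≤ (2 + t ^ 2) * arctan t := by
  have hd : ∀ r : ℝ, HasDerivAt (fun r : ℝ => arctan r - 2 * r / (2 + r ^ 2))
      (1 / (1 + r ^ 2) - (2 * (2 + r ^ 2) - 2 * r * (2 * r)) / (2 + r ^ 2) ^ 2) r := fun r => by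
    have h1 : HasDerivAt (fun r : ℝ => 2 * r) 2 r := by simpa using (hasDerivAt_id r).const_mul 2
    have h2 : HasDerivAt (fun r : ℝ => 2 + r ^ 2) (2 * r) r := by
      simpa using (hasDerivAt_pow 2 r).const_add 2
    exact (hasDerivAt_arctan r).sub (h1.div h2 (by positivity))
  have hm : Monotone (fun r : ℝ => arctan r - 2 * r / (2 + r ^ 2)) := by
    refine monotone_of_deriv_nonneg (fun r => (hd r).differentiableAt) fun r => ?_
    rw [(hd r).deriv, sub_nonneg, div_le_div_iff₀ (by positivity) (by positivity)]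
    nlinarith [sq_nonneg r, sq_nonneg (r ^ 2)]
  have := hm h
  simp only [arctan_zero, mul_zero, zero_div, sub_zero, sub_nonneg] at this
  rwa [div_le_iff₀ (by positivity), mul_comm (arctan t)] at this

theorem le_arctan' {t : ℝ} (h : 0 ≤ t) : t ≤ (1 + t ^ 2) * arctan t := by
  have h1 := le_arctan h
  have h2 := mul_nonneg (sq_nonneg t) (arctan_nonneg.2 h)
  nlinarith

theorem le_acot (s : ℝ) : 2 * s ≤ (1 + 2 * s ^ 2) * acot s := by
  rcases le_or_gt s 0 with h | h
  · have : 0 ≤ (1 + 2 * s ^ 2) * acot s := mul_nonneg (by positivity) (acot_pos s).le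
    linarith
  · rw [acot_inv h]
    have h1 := mul_le_mul_of_nonneg_left (le_arctan (inv_pos.2 h).le) (sq_nonneg s)
    have e1 : s ^ 2 * (2 * s⁻¹) = 2 * s := by field_simp
    have e2 : s ^ 2 * ((2 + s⁻¹ ^ 2) * arctan s⁻¹) = (1 + 2 * s ^ 2) * arctan s⁻¹ := by
      field_simp; ring
    rwa [e1, e2] at h1

theorem JJ_ge (s : ℝ) : acot s ≤ 2 * JJ s := by
  have := le_acot s
  simp only [JJ]; linarith

theorem JJ_pos (s : ℝ) : 0 < JJ s := by
  have := JJ_ge s
  have := acot_pos s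
  linarith

theorem hasDerivAt_JJ (u : ℝ) : HasDerivAt JJ (2 * (u * acot u - 1)) u := by
  have h1 : HasDerivAt acot (-(1 / (1 + u ^ 2))) u := (hasDerivAt_arctan u).const_sub (π / 2)
  have h2 : HasDerivAt (fun r : ℝ => 1 + r ^ 2) (2 * u) u := by
    simpa using (hasDerivAt_pow 2 u).const_add 1
  have h3 := (h2.mul h1).sub (hasDerivAt_id u)
  refine h3.congr_deriv ?_
  field_simp
  ring

theorem JJ_anti : Antitone JJ := by
  refine antitone_of_deriv_nonpos (fun r => (hasDerivAt_JJ r).differentiableAt) fun r => ?_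
  rw [(hasDerivAt_JJ r).deriv]
  have := mul_acot_le r
  linarith

theorem JJ_sub {u v : ℝ} (h : v ≤ u) (hu : u ≤ 0) : 2 * (u - v) ≤ JJ v - JJ u := by
  have hd : ∀ r : ℝ, HasDerivAt (fun r => JJ r + 2 * r) (2 * (r * acot r - 1) + 2) r := fun r =>
    (hasDerivAt_JJ r).add (by simpa using (hasDerivAt_id r).const_mul 2)
  have : AntitoneOn (fun r => JJ r + 2 * r) (Iic 0) := by
    refine antitoneOn_of_deriv_nonpos (convex_Iic 0)
      (fun r _ => (hd r).continuousAt.continuousWithinAt)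
      (fun r _ => (hd r).differentiableAt.differentiableWithinAt) fun r hr => ?_
    rw [interior_Iic] at hr
    rw [(hd r).deriv]
    have := mul_nonneg (neg_nonneg.2 (le_of_lt hr)) (acot_pos r).le
    linarith
  have := this (h.trans hu) hu h
  simp only at this
  linarith

theorem JJ_neg (u : ℝ) : JJ (-u) = (1 + u ^ 2) * π - JJ u := by
  simp only [JJ, acot_neg]; ring

theorem JJ_left {a : ℝ} (h : 0 ≤ a) : (1 + a ^ 2) * (π / 2) + 2 * a ≤ JJ (-a) := by
  have := le_arctan' h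
  simp only [JJ, acot, arctan_neg]
  nlinarith

theorem ker_neg {x u v t : ℝ} (hx : 1 ≤ x) (ht : 0 ≤ t) (e : t = x * (u - v)) :
    t ≤ x ^ 2 * (JJ v - JJ u) + x ^ 2 * (1 + u ^ 2) * acot t := by
  have hx0 : 0 < x := by linarith
  have huv : v ≤ u := by
    by_contra h
    have := mul_pos hx0 (sub_pos.2 (not_le.1 h))
    linarith
  have hJ : 0 ≤ JJ v - JJ u := sub_nonneg.2 (JJ_anti huv)
  have ha := (acot_pos t).le
  have ht1 : t ≤ (1 + t ^ 2) * acot t := by
    have := JJ_pos t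
    simp only [JJ] at this
    linarith
  have hR : 0 ≤ x ^ 2 * (1 + u ^ 2) * acot t := by positivity
  rcases le_or_gt 0 v with hv | hv
  · have h1 : t ≤ x * u := by nlinarith
    have h2 : 1 + t ^ 2 ≤ x ^ 2 * (1 + u ^ 2) := by nlinarith
    have h3 := mul_le_mul_of_nonneg_right h2 ha
    have h4 := mul_nonneg (sq_nonneg x) hJ
    linarith
  rcases le_or_gt u 0 with hu | hu
  · have h1 := mul_le_mul_of_nonneg_left (JJ_sub huv hu) (sq_nonneg x)
    have h2 : x ^ 2 * (2 * (u - v)) = 2 * x * t := by rw [e]; ring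
    nlinarith
  · have h1 := JJ_sub hv.le le_rfl
    have h2 := JJ_anti hu.le
    have h3 : x ^ 2 * (2 * (0 - v)) ≤ x ^ 2 * (JJ v - JJ u) := by gcongr; linarith
    obtain ⟨Y, hY⟩ : ∃ Y, Y = -(x * v) := ⟨_, rfl⟩
    have hY0 : 0 ≤ Y := by rw [hY]; nlinarith
    have h4 : x ^ 2 * (2 * (0 - v)) = 2 * x * Y := by rw [hY]; ring
    have h5 : x ^ 2 * (1 + u ^ 2) = x ^ 2 + (t - Y) ^ 2 := by rw [hY, e]; ring
    rw [h5]
    have h6 : (1 + t ^ 2) * (t - 2 * Y) ≤ (1 + t ^ 2) * ((x ^ 2 + (t - Y) ^ 2) * acot t) := by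
      have h7 := mul_le_mul_of_nonneg_left ht1 (by positivity : 0 ≤ x ^ 2 + (t - Y) ^ 2)
      have h8 : 0 ≤ t * (x ^ 2 - 1) := mul_nonneg ht (by nlinarith)
      have h9 : 0 ≤ t * Y ^ 2 := by positivity
      nlinarith
    have h7 := le_of_mul_le_mul_left h6 (by positivity)
    nlinarith

theorem ker_pos {x u v s : ℝ} (hx : 1 ≤ x) (hs : 0 < s) (e : s = x * (u + v)) :
    x ^ 2 * (1 + u ^ 2) * acot s ≤ x ^ 2 * (JJ v + JJ u) + s := by
  have hx0 : 0 < x := by linarith
  have ha := (acot_pos s).le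
  have ha2 := acot_le hs.le
  have ha3 := mul_acot_le s
  have ha4 : s ^ 2 * acot s ≤ s := by nlinarith
  have hJu := (JJ_pos u).le
  have hJv := (JJ_pos v).le
  have hx2 : 0 ≤ x ^ 2 := sq_nonneg x
  rcases le_or_gt u 0 with hu | hu
  · have h1 := JJ_left (neg_nonneg.2 hu)
    rw [neg_neg, neg_sq] at h1
    have h2 : (1 + u ^ 2) * acot s ≤ JJ v + JJ u := by nlinarith [sq_nonneg u]
    have h3 := mul_le_mul_of_nonneg_left h2 hx2
    nlinarith
  rcases le_or_gt v 0 with hv | hv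
  · have h1 := JJ_left (neg_nonneg.2 hv)
    rw [neg_neg, neg_sq] at h1
    have h2 : x ^ 2 * (1 + u ^ 2) * acot s =
        x ^ 2 * ((1 + v ^ 2) * acot s) + 2 * (x * -v) * (s * acot s) + s ^ 2 * acot s := by
      rw [e]; ring
    have h3 : (1 + v ^ 2) * acot s ≤ (1 + v ^ 2) * (π / 2) := by gcongr
    have h4 : 0 ≤ x * -v := mul_nonneg hx0.le (neg_nonneg.2 hv)
    have h5 : 2 * (x * -v) * (s * acot s) ≤ x ^ 2 * (2 * -v) := by nlinarith
    have h6 : x ^ 2 * ((1 + v ^ 2) * acot s + 2 * -v) ≤ x ^ 2 * (JJ v + JJ u) :=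
      mul_le_mul_of_nonneg_left (by linarith) hx2
    nlinarith
  · have h1 : u + v ≤ s := by nlinarith
    have h2 := JJ_anti (show u ≤ s by linarith)
    have h3 := JJ_anti (show v ≤ s by linarith)
    have h4 := JJ_ge s
    have h5 : x ^ 2 * acot s ≤ x ^ 2 * (JJ v + JJ u) := by gcongr; linarith
    have h6 : x * u ≤ s := by nlinarith
    have h7 : (x * u) ^ 2 ≤ s ^ 2 := by gcongr
    have h8 := mul_le_mul_of_nonneg_right h7 ha
    nlinarith

/-- the inequality for the extremal functions -/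
theorem ker {x y s : ℝ} (hx : 1 ≤ x) :
    (x ^ 2 + (y - s) ^ 2) * (-arctan s - arctan ((y - s) / x)) + s * (x - 1) ≤
      acot (y / x) * (x ^ 2 + y ^ 2) := by
  have hx0 : 0 < x := by linarith
  obtain ⟨v, rfl⟩ : ∃ v, y = x * v := ⟨y / x, by field_simp⟩
  obtain ⟨u, rfl⟩ : ∃ u, s = x * (u + v) := ⟨s / x - v, by field_simp; ring⟩
  have e1 : (x * v - x * (u + v)) / x = -u := by field_simp; ring
  have e2 : x * v / x = v := by field_simp
  rw [e1, e2, arctan_neg]
  have key : x ^ 2 * (1 + u ^ 2) * acot (x * (u + v)) ≤ x ^ 2 * (JJ v + JJ u) + x * (u + v) := by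
    rcases le_or_gt (x * (u + v)) 0 with h | h
    · have h1 := ker_neg (u := -u) (v := v) (t := -(x * (u + v))) hx (by linarith) (by ring)
      rw [JJ_neg, acot_neg, neg_sq] at h1
      nlinarith
    · exact ker_pos hx h rfl
  simp only [JJ, acot] at key ⊢
  nlinarith

theorem ker_inf {x y : ℝ} (hx : 1 ≤ x) : x * y - 2 * y ≤ acot (y / x) * (x ^ 2 + y ^ 2) := by
  have hx0 : 0 < x := by linarith
  obtain ⟨v, rfl⟩ : ∃ v, y = x * v := ⟨y / x, by field_simp⟩
  have e2 : x * v / x = v := by field_simp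
  rw [e2]
  have e : acot v * (x ^ 2 + (x * v) ^ 2) = x ^ 2 * JJ v + x * (x * v) := by
    simp only [JJ]; ring
  rw [e]
  rcases le_or_gt 0 v with hv | hv
  · have := mul_nonneg (sq_nonneg x) (JJ_pos v).le
    have := mul_nonneg hx0.le hv
    linarith
  · have h1 := JJ_left (neg_nonneg.2 hv.le)
    rw [neg_neg] at h1
    have h2 : 0 ≤ (1 + (-v) ^ 2) * (π / 2) := by positivity
    have h3 : x ^ 2 * (2 * -v) ≤ x ^ 2 * JJ v := by gcongr; linarith
    have h4 : 0 ≤ x * -v := mul_nonneg hx0.le (neg_nonneg.2 hv.le)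
    nlinarith

end Pool.Agent.MP_0641e2_an

end
end

section

/-! A linear inequality for holomorphic functions with nonnegative real part. -/

open Complex Set Filter Topology Metric MeasureTheory
open scoped Real

noncomputable section

namespace Pool.Agent.MP_0641e2_an

/-- the right half-plane -/
def RH : Set ℂ := {w | 0 < w.re}

theorem mem_RH {w : ℂ} : w ∈ RH ↔ 0 < w.re := Iff.rfl

theorem isOpen_RH : IsOpen RH := isOpen_lt continuous_const continuous_re

theorem arg_eq {w : ℂ} (h : 0 < w.re) : arg w = Real.arctan (w.im / w.re) := by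
  have := abs_arg_lt_pi_div_two_iff.2 (Or.inl h)
  exact (Real.arctan_eq_of_tan_eq (tan_arg w) (abs_lt.1 this)).symm

/-- the segment from 1 to p -/
def seg (p : ℂ) (t : ℝ) : ℂ := 1 + t * (p - 1)

/-- the multiplier -/
def AA (p : ℂ) : ℝ := (acot (p.im / p.re) * (p.re ^ 2 + p.im ^ 2) - p.im * (p.re - 1)) / p.re

/-- the functional -/
def lam (p : ℂ) (E : ℂ → ℂ) : ℝ :=
  AA p * (E p).re - (p.re - 1) * (E p).im + (∫ t in (0 : ℝ)..1, E (seg p t) * (p - 1)).im

theorem seg_mem {p : ℂ} (hx : 1 ≤ p.re) {t : ℝ} (ht : t ∈ uIcc (0 : ℝ) 1) : seg p t ∈ RH := by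
  rw [uIcc_of_le zero_le_one] at ht
  have := mul_nonneg ht.1 (sub_nonneg.2 hx)
  simp only [mem_RH, seg, add_re, one_re, mul_re, ofReal_re, ofReal_im, sub_re]
  linarith

theorem continuous_seg (p : ℂ) : Continuous (seg p) := by unfold seg; fun_prop

theorem seg_int {p : ℂ} (hx : 1 ≤ p.re) {g E : ℂ → ℂ} (hg : ∀ w ∈ RH, HasDerivAt g (E w) w)
    (hE : ContinuousOn E RH) : ∫ t in (0 : ℝ)..1, E (seg p t) * (p - 1) = g p - g 1 := by
  have h := intervalIntegral.integral_eq_sub_of_hasDerivAt (f := fun t : ℝ => g (seg p t))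
    (f' := fun t => E (seg p t) * (p - 1)) (a := 0) (b := 1) (fun t ht => by
      have h1 : HasDerivAt (fun z : ℂ => 1 + z * (p - 1)) (p - 1) (t : ℂ) := by
        simpa using ((hasDerivAt_id (t : ℂ)).mul_const (p - 1)).const_add 1
      exact ((hg _ (seg_mem hx ht)).comp (t : ℂ) h1).comp_ofReal)
    (ContinuousOn.intervalIntegrable
      ((hE.comp (continuous_seg p).continuousOn fun t ht => seg_mem hx ht).mul continuousOn_const))
  simpa [seg] using h

/-- the Schwarz kernel in half-plane coordinates -/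
def KK (ζ w : ℂ) : ℂ := (ζ * (w + 1) + (w - 1)) / (ζ * (w + 1) - (w - 1))

theorem norm_lt_RH {w : ℂ} (hw : w ∈ RH) : ‖w - 1‖ < ‖w + 1‖ := by
  have h : 0 < w.re := hw
  refine lt_of_pow_lt_pow_left₀ 2 (norm_nonneg _) ?_
  rw [Complex.sq_norm, Complex.sq_norm, normSq_apply, normSq_apply]
  simp only [sub_re, one_re, sub_im, one_im, add_re, add_im]
  nlinarith

theorem add_one_ne {w : ℂ} (hw : w ∈ RH) : w + 1 ≠ 0 := by
  have := norm_lt_RH hw
  intro h
  rw [h, norm_zero] at this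
  exact absurd this (not_lt.2 (norm_nonneg _))

theorem den_ne {ζ w : ℂ} (hζ : ‖ζ‖ = 1) (hw : w ∈ RH) : ζ * (w + 1) - (w - 1) ≠ 0 := by
  intro h
  have h1 := congrArg norm (sub_eq_zero.1 h)
  rw [norm_mul, hζ, one_mul] at h1
  exact absurd (norm_lt_RH hw) (by rw [h1]; exact lt_irrefl _)

theorem lam_congr {p : ℂ} (hx : 1 ≤ p.re) {E E' : ℂ → ℂ} (h : ∀ w ∈ RH, E w = E' w) :
    lam p E = lam p E' := by
  have hp : p ∈ RH := lt_of_lt_of_le zero_lt_one hx
  simp only [lam, h p hp]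
  congr 2
  exact intervalIntegral.integral_congr fun t ht => by simp only [h _ (seg_mem hx ht)]

theorem lam_id {p : ℂ} (hx : 1 ≤ p.re) : 0 ≤ lam p fun w => w := by
  have h := seg_int hx (g := fun w => w ^ 2 / 2) (E := fun w => w)
    (fun w _ => by simpa using (hasDerivAt_pow 2 w).div_const 2) continuousOn_id
  have h0 : p.re ≠ 0 := by linarith
  have e : (p ^ 2 / 2 - 1 ^ 2 / 2 : ℂ).im = p.re * p.im := by
    simp [pow_two]; ring
  simp only [lam, h, e, AA, div_mul_cancel₀ _ h0]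
  have := ker_inf (y := p.im) hx
  linarith

theorem lam_pole {p : ℂ} (hx : 1 ≤ p.re) (s : ℝ) :
    0 ≤ lam p fun w => ((1 + s ^ 2 : ℝ) : ℂ) * (w - s * I)⁻¹ - s * I := by
  have hre : ∀ w ∈ RH, 0 < (w - s * I).re := fun w hw => by simpa using mem_RH.1 hw
  have hne : ∀ w ∈ RH, w - s * I ≠ 0 := fun w hw h => by
    have := hre w hw
    rw [h] at this
    simp at this
  have hp : p ∈ RH := lt_of_lt_of_le zero_lt_one hx
  have h1 : (1 : ℂ) ∈ RH := by simp [mem_RH]
  have h := seg_int hx (g := fun w => ((1 + s ^ 2 : ℝ) : ℂ) * log (w - s * I) - s * I * w)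
    (E := fun w => ((1 + s ^ 2 : ℝ) : ℂ) * (w - s * I)⁻¹ - s * I)
    (fun w hw => by
      have a := ((hasDerivAt_id w).sub_const ((s : ℂ) * I)).clog (Or.inl (hre w hw))
      have b := (a.const_mul ((1 + s ^ 2 : ℝ) : ℂ)).sub ((hasDerivAt_id w).const_mul ((s : ℂ) * I))
      exact b.congr_deriv (by simp))
    ((continuousOn_const.mul ((continuousOn_id.sub continuousOn_const).inv₀ hne)).sub
      continuousOn_const)
  have h0 : 0 < p.re := hp
  have hR : 0 < p.re ^ 2 + (p.im - s) ^ 2 := by positivity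
  have e1 : arg (p - s * I) = Real.arctan ((p.im - s) / p.re) := by
    rw [arg_eq (hre p hp)]; simp
  have e2 : arg (1 - s * I) = -Real.arctan s := by
    rw [arg_eq (hre 1 h1), ← Real.arctan_neg]; simp
  have e3 : normSq (p - s * I) = p.re ^ 2 + (p.im - s) ^ 2 := by
    simp [normSq_apply]; ring
  have k := ker (y := p.im) (s := s) hx
  simp only [lam, h, sub_im, sub_re, mul_im, mul_re, ofReal_re, ofReal_im, log_im, e1, e2, inv_re,
    inv_im, e3, I_re, I_im, one_re, one_im, AA]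
  obtain ⟨N, hN⟩ : ∃ N, N = acot (p.im / p.re) * (p.re ^ 2 + p.im ^ 2) := ⟨_, rfl⟩
  rw [← hN] at k ⊢
  obtain ⟨a, ha⟩ : ∃ a, a = Real.arctan ((p.im - s) / p.re) := ⟨_, rfl⟩
  rw [← ha] at k ⊢
  have key : 0 ≤ (1 + s ^ 2) * ((N - s * (p.re - 1) - (p.re ^ 2 + (p.im - s) ^ 2) *
      (-Real.arctan s - a)) / (p.re ^ 2 + (p.im - s) ^ 2)) :=
    mul_nonneg (by positivity) (div_nonneg (by linarith) hR.le)
  refine key.trans_eq ?_
  field_simp
  ring

theorem lam_KK {p ζ : ℂ} (hx : 1 ≤ p.re) (hζ : ‖ζ‖ = 1) : 0 ≤ lam p (KK ζ) := by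
  by_cases h1 : ζ = 1
  · rw [lam_congr hx (E' := fun w => w) fun w _ => by
      simp only [KK, h1]; rw [div_eq_iff (by ring_nf; norm_num)]; ring]
    exact lam_id hx
  have h2 : 1 - ζ ≠ 0 := sub_ne_zero.2 (Ne.symm h1)
  have h3 : ((1 + ζ) / (1 - ζ)).re = 0 := by
    have : normSq ζ = 1 := by rw [← Complex.sq_norm, hζ]; norm_num
    rw [normSq_apply] at this
    rw [div_re, ← add_div]
    simp only [add_re, one_re, sub_re, add_im, one_im, sub_im]
    rw [div_eq_zero_iff]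
    left
    linarith
  obtain ⟨s, hs⟩ : ∃ s : ℝ, (1 + ζ) / (1 - ζ) = s * I :=
    ⟨((1 + ζ) / (1 - ζ)).im, Complex.ext (by simp [h3]) (by simp)⟩
  rw [div_eq_iff h2] at hs
  rw [lam_congr hx (E' := fun w => ((1 + s ^ 2 : ℝ) : ℂ) * (w - s * I)⁻¹ - s * I) fun w hw => ?_]
  · exact lam_pole hx s
  have hne : w - s * I ≠ 0 := fun h => by
    have : 0 < (w - s * I).re := by simpa using mem_RH.1 hw
    rw [h] at this
    simp at this
  have e1 : ζ * (w + 1) + (w - 1) = (1 - ζ) * (s * I * w - 1) := by linear_combination w * hs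
  have e2 : ζ * (w + 1) - (w - 1) = (1 - ζ) * -(w - s * I) := by linear_combination hs
  simp only [KK]
  rw [e1, e2, mul_div_mul_left _ _ h2, div_eq_iff (neg_ne_zero.2 hne)]
  push_cast
  field_simp
  linear_combination ((s : ℂ) ^ 2) * I_sq

theorem schwarz_formula {q : ℂ → ℂ} (hq : DiffContOnCl ℂ q (ball 0 1)) :
    ∃ β : ℝ, ∀ z ∈ ball (0 : ℂ) 1, q z = (2 * π)⁻¹ • (∫ θ in (0 : ℝ)..2 * π,
      herglotzRieszKernel 0 z (circleMap 0 1 θ) * ((q (circleMap 0 1 θ)).re : ℂ)) + β * I := by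
  have hc : ContinuousOn q (sphere 0 |1|) := by
    rw [abs_one]
    exact hq.continuousOn_ball.mono sphere_subset_closedBall
  have hc1 : ContinuousOn (fun ζ => (q ζ).re) (sphere 0 |1|) := continuous_re.comp_continuousOn hc
  have i1 : CircleIntegrable (fun ζ => (q ζ).re) 0 1 := hc1.circleIntegrable'
  have i2 : CircleIntegrable (fun ζ => ((q ζ).re : ℂ)) 0 1 :=
    (continuous_ofReal.comp_continuousOn hc1).circleIntegrable'
  have hd := differentiableOn_circleAverage_herglotzRieszKernel_smul i2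
  obtain ⟨β, hβ⟩ := AnalyticOnNhd.eq_re_add_const_mul_I_of_re_eq_const (c₀ := 0)
    ((hq.differentiableOn.sub hd).analyticOnNhd isOpen_ball) (fun z hz => by
      have a := re_circleAverage_herglotzRieszKernel_smul i1 hz
      have b := hq.circleAverage_re_herglotzRieszKernel_smul hz
      have i3 : CircleIntegrable ((re ∘ herglotzRieszKernel 0 z) • q) 0 1 :=
        ((continuous_re.comp_continuousOn (continuousOn_herglotzRieszKernel_sphere hz)).smul
          hc).circleIntegrable'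
      have c := reCLM.circleAverage_comp_comm i3
      rw [b] at c
      simp only [Pi.sub_apply, sub_re, a]
      rw [sub_eq_zero]
      refine c.symm.trans ?_
      congr 1
      ext ζ
      simp) isOpen_ball (isConnected_ball one_pos)
  refine ⟨β, fun z hz => ?_⟩
  have := hβ z hz
  simp only [Pi.sub_apply, Real.circleAverage_def, smul_eq_mul, ofReal_zero, zero_add] at this
  linear_combination this

theorem lam_disc {p : ℂ} (hx : 1 ≤ p.re) {q : ℂ → ℂ} (hq : DiffContOnCl ℂ q (ball 0 1))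
    (h0 : ∀ ζ, ‖ζ‖ = 1 → 0 ≤ (q ζ).re) : 0 ≤ lam p fun w => q ((w - 1) / (w + 1)) := by
  obtain ⟨β, hβ⟩ := schwarz_formula hq
  have hp : p ∈ RH := lt_of_lt_of_le zero_lt_one hx
  have hn : ∀ θ, ‖circleMap 0 1 θ‖ = 1 := fun θ => by simp
  obtain ⟨u, hu⟩ : ∃ u : ℝ → ℝ, u = fun θ => (q (circleMap 0 1 θ)).re := ⟨_, rfl⟩
  have hu0 : ∀ θ, 0 ≤ u θ := fun θ => by rw [hu]; exact h0 _ (hn θ)
  have huc : Continuous u := by
    rw [hu]
    exact continuous_re.comp (hq.continuousOn_ball.comp_continuous (continuous_circleMap 0 1)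
      fun θ => by simp)
  have rep : ∀ w ∈ RH, q ((w - 1) / (w + 1)) =
      (2 * π)⁻¹ • (∫ θ in (0 : ℝ)..2 * π, KK (circleMap 0 1 θ) w * (u θ : ℂ)) + β * I := by
    intro w hw
    have hz : (w - 1) / (w + 1) ∈ ball (0 : ℂ) 1 := by
      rw [mem_ball_zero_iff, norm_div, div_lt_one (norm_pos_iff.2 (add_one_ne hw))]
      exact norm_lt_RH hw
    rw [hβ _ hz, hu]
    congr 2
    refine intervalIntegral.integral_congr fun θ _ => ?_
    simp only [herglotzRieszKernel_def, sub_zero, KK]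
    congr 1
    rw [← mul_div_mul_right _ _ (add_one_ne hw), add_mul, sub_mul,
      div_mul_cancel₀ _ (add_one_ne hw)]
  have hK : ∀ w ∈ RH, Continuous fun θ => KK (circleMap 0 1 θ) w := fun w hw => by
    unfold KK
    exact Continuous.div (by fun_prop) (by fun_prop) fun θ => den_ne (hn θ) hw
  have hF : ContinuousOn (Function.uncurry fun (t θ : ℝ) =>
      KK (circleMap 0 1 θ) (seg p t) * (p - 1) * (u θ : ℂ)) (uIcc 0 1 ×ˢ uIcc 0 (2 * π)) := by
    have := continuous_seg p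
    refine ContinuousOn.mul (ContinuousOn.mul ?_ continuousOn_const) (by fun_prop)
    unfold KK
    exact ContinuousOn.div (by fun_prop) (by fun_prop) fun a ha => den_ne (hn _) (seg_mem hx ha.1)
  have hI : IntegrableOn (Function.uncurry fun (t θ : ℝ) =>
      KK (circleMap 0 1 θ) (seg p t) * (p - 1) * (u θ : ℂ)) (uIoc 0 1 ×ˢ uIoc 0 (2 * π)) :=
    (hF.integrableOn_compact (isCompact_uIcc.prod isCompact_uIcc)).mono_set
      (prod_mono uIoc_subset_uIcc uIoc_subset_uIcc)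
  have sw := intervalIntegral_intervalIntegral_swap hI
  have hI2 : IntervalIntegrable (fun t => ∫ θ in (0 : ℝ)..2 * π,
      KK (circleMap 0 1 θ) (seg p t) * (p - 1) * (u θ : ℂ)) volume 0 1 := by
    have h1 := hI
    rw [IntegrableOn, Measure.volume_eq_prod, ← Measure.prod_restrict] at h1
    rw [intervalIntegrable_iff]
    simp_rw [intervalIntegral.integral_of_le Real.two_pi_pos.le]
    rw [uIoc_of_le Real.two_pi_pos.le] at h1
    exact h1.integral_prod_left
  have hI3 : IntervalIntegrable (fun θ => ∫ t in (0 : ℝ)..1,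
      KK (circleMap 0 1 θ) (seg p t) * (p - 1) * (u θ : ℂ)) volume 0 (2 * π) := by
    have h1 := hI
    rw [IntegrableOn, Measure.volume_eq_prod, ← Measure.prod_restrict] at h1
    rw [intervalIntegrable_iff]
    simp_rw [intervalIntegral.integral_of_le zero_le_one]
    rw [uIoc_of_le zero_le_one] at h1
    exact h1.integral_prod_right
  have e1 : ∫ t in (0 : ℝ)..1, q ((seg p t - 1) / (seg p t + 1)) * (p - 1) =
      (2 * π)⁻¹ • (∫ θ in (0 : ℝ)..2 * π, ∫ t in (0 : ℝ)..1,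
        KK (circleMap 0 1 θ) (seg p t) * (p - 1) * (u θ : ℂ)) + β * I * (p - 1) := by
    rw [← sw, ← intervalIntegral.integral_smul]
    have : β * I * (p - 1) = ∫ _t in (0 : ℝ)..1, β * I * (p - 1) := by simp
    have hI5 : IntervalIntegrable (fun t => (2 * π)⁻¹ • ∫ θ in (0 : ℝ)..2 * π,
      KK (circleMap 0 1 θ) (seg p t) * (p - 1) * (u θ : ℂ)) volume 0 1 := hI2.smul (2 * π)⁻¹
    rw [this, ← intervalIntegral.integral_add hI5 intervalIntegrable_const]
    refine intervalIntegral.integral_congr fun t ht => ?_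
    simp only [rep _ (seg_mem hx ht), add_mul, smul_mul_assoc]
    rw [← intervalIntegral.integral_mul_const]
    congr 2
    exact intervalIntegral.integral_congr fun θ _ => by ring
  have hI4 : IntervalIntegrable (fun θ => KK (circleMap 0 1 θ) p * (u θ : ℂ)) volume 0 (2 * π) :=
    ((hK p hp).mul (continuous_ofReal.comp huc)).intervalIntegrable _ _
  obtain ⟨L, hL⟩ : ∃ L : ℂ →L[ℝ] ℝ, L = AA p • reCLM - (p.re - 1) • imCLM := ⟨_, rfl⟩
  have hLa : ∀ z, L z = AA p * z.re - (p.re - 1) * z.im := fun z => by simp [hL]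
  have e2 : lam p (fun w => q ((w - 1) / (w + 1))) =
      (2 * π)⁻¹ * ∫ θ in (0 : ℝ)..2 * π, lam p (KK (circleMap 0 1 θ)) * u θ := by
    have a1 := L.intervalIntegral_comp_comm hI4
    have a2 := imCLM.intervalIntegral_comp_comm hI3
    have a3 : ∫ θ in (0 : ℝ)..2 * π, lam p (KK (circleMap 0 1 θ)) * u θ =
        ∫ θ in (0 : ℝ)..2 * π, (L (KK (circleMap 0 1 θ) p * (u θ : ℂ)) + imCLM (∫ t in (0 : ℝ)..1,
          KK (circleMap 0 1 θ) (seg p t) * (p - 1) * (u θ : ℂ))) := by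
      refine intervalIntegral.integral_congr fun θ _ => ?_
      simp only [lam, hLa, intervalIntegral.integral_mul_const, imCLM_apply, mul_re, mul_im,
        ofReal_re, ofReal_im]
      ring
    rw [a3, intervalIntegral.integral_add ⟨L.integrable_comp hI4.1, L.integrable_comp hI4.2⟩
      ⟨imCLM.integrable_comp hI3.1, imCLM.integrable_comp hI3.2⟩, a1, a2, hLa]
    simp only [lam, e1, rep p hp, imCLM_apply, add_re, add_im, smul_re, smul_im, smul_eq_mul,
      mul_re, mul_im, ofReal_re, ofReal_im, I_re, I_im, sub_re, sub_im, one_re, one_im]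
    ring
  rw [e2]
  exact mul_nonneg (by positivity) (intervalIntegral.integral_nonneg Real.two_pi_pos.le
    fun θ _ => mul_nonneg (lam_KK hx (hn θ)) (hu0 θ))

theorem sub_ne_of_norm_lt {a b : ℂ} (h : ‖b‖ < ‖a‖) : a - b ≠ 0 := fun e => by
  rw [sub_eq_zero.1 e] at h
  exact lt_irrefl _ h

theorem quot_mem {a b : ℂ} (h : ‖b‖ < ‖a‖) : (a + b) / (a - b) ∈ RH := by
  have h1 : 0 < normSq (a - b) := normSq_pos.2 (sub_ne_of_norm_lt h)
  have h2 : normSq b < normSq a := by
    rw [← Complex.sq_norm, ← Complex.sq_norm]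
    exact pow_lt_pow_left₀ h (norm_nonneg _) two_ne_zero
  rw [mem_RH, div_re, ← add_div]
  refine div_pos ?_ h1
  simp only [normSq_apply] at h2
  simp only [add_re, sub_re, add_im, sub_im]
  linarith

theorem lin_ineq {p : ℂ} (hx : 1 ≤ p.re) {Q g : ℂ → ℂ} (hg : ∀ w ∈ RH, HasDerivAt g (Q w) w)
    (hQ : DifferentiableOn ℂ Q RH) (h0 : ∀ w ∈ RH, 0 ≤ (Q w).re) :
    0 ≤ AA p * (Q p).re - (p.re - 1) * (Q p).im + (g p - g 1).im := by
  have hp : p ∈ RH := lt_of_lt_of_le zero_lt_one hx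
  obtain ⟨T, hT⟩ : ∃ T : ℝ → ℂ → ℂ, T = fun (r : ℝ) (w : ℂ) =>
    (1 + ((max 0 (min r 1) : ℝ) : ℂ) * ((w - 1) / (w + 1))) /
      (1 - ((max 0 (min r 1) : ℝ) : ℂ) * ((w - 1) / (w + 1))) := ⟨_, rfl⟩
  have hlt : ∀ (r : ℝ), ∀ w ∈ RH,
      ‖((max 0 (min r 1) : ℝ) : ℂ) * ((w - 1) / (w + 1))‖ < ‖(1 : ℂ)‖ := fun r w hw => by
    have h1 : ‖(w - 1) / (w + 1)‖ < 1 := by
      rw [norm_div, div_lt_one (norm_pos_iff.2 (add_one_ne hw))]
      exact norm_lt_RH hw
    rw [norm_mul, norm_one, norm_real, Real.norm_of_nonneg (le_max_left _ _)]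
    exact lt_of_le_of_lt (mul_le_of_le_one_left (norm_nonneg _)
      (max_le zero_le_one (min_le_right _ _))) h1
  have hTm : ∀ r, ∀ w ∈ RH, T r w ∈ RH := fun r w hw => by
    rw [hT]; exact quot_mem (hlt r w hw)
  have hT1 : ∀ w ∈ RH, T 1 w = w := fun w hw => by
    have := add_one_ne hw
    simp only [hT, min_self, zero_le_one, max_eq_right, ofReal_one, one_mul]
    have e1 : 1 - (w - 1) / (w + 1) = 2 / (w + 1) := by field_simp; ring
    have e2 : 1 + (w - 1) / (w + 1) = 2 * w / (w + 1) := by field_simp; ring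
    rw [e1, e2]
    field_simp
  have hTc : ∀ {X : Type} [TopologicalSpace X] (r : X → ℝ) (w : X → ℂ), Continuous r →
      Continuous w → (∀ x, w x ∈ RH) → Continuous fun x => Q (T (r x) (w x)) := by
    intro X _ r w hr hw hm
    refine hQ.continuousOn.comp_continuous ?_ fun x => hTm _ _ (hm x)
    have h1 : Continuous fun x => ((max 0 (min (r x) 1) : ℝ) : ℂ) * ((w x - 1) / (w x + 1)) :=
      Continuous.mul (by fun_prop) (Continuous.div (by fun_prop) (by fun_prop)
        fun x => add_one_ne (hm x))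
    simp only [hT]
    exact Continuous.div (continuous_const.add h1) (continuous_const.sub h1)
      fun x => sub_ne_of_norm_lt (hlt _ _ (hm x))
  have hm : ∀ t : ℝ, seg p (max 0 (min t 1)) ∈ RH := fun t => seg_mem hx (by
    rw [uIcc_of_le zero_le_one]
    exact ⟨le_max_left _ _, max_le zero_le_one (min_le_right _ _)⟩)
  have hc : Continuous fun r => lam p fun w => Q (T r w) := by
    have c1 := hTc id (fun _ => p) continuous_id continuous_const fun _ => hp
    have c2 := hTc (fun x : ℝ × ℝ => x.1) (fun x => seg p (max 0 (min x.2 1))) continuous_fst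
      ((continuous_seg p).comp (by fun_prop)) fun x => hm _
    have c3 := intervalIntegral.continuous_parametric_intervalIntegral_of_continuous'
      (μ := volume) (f := fun r t => Q (T r (seg p (max 0 (min t 1)))) * (p - 1))
      (c2.mul continuous_const) 0 1
    have e : ∀ r, ∫ t in (0 : ℝ)..1, Q (T r (seg p t)) * (p - 1) =
        ∫ t in (0 : ℝ)..1, Q (T r (seg p (max 0 (min t 1)))) * (p - 1) := fun r =>
      intervalIntegral.integral_congr fun t ht => by
        rw [uIcc_of_le zero_le_one] at ht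
        simp only [min_eq_left ht.2, max_eq_right ht.1]
    simp only [lam, e]
    exact ((continuous_const.mul (continuous_re.comp c1)).sub
      (continuous_const.mul (continuous_im.comp c1))).add (continuous_im.comp c3)
  have hr : ∀ r ∈ Ioo (0 : ℝ) 1, 0 ≤ lam p fun w => Q (T r w) := fun r hr => by
    have h1 : ∀ z ∈ closedBall (0 : ℂ) 1, ‖(r : ℂ) * z‖ < ‖(1 : ℂ)‖ := fun z hz => by
      rw [norm_mul, norm_one, norm_real, Real.norm_of_nonneg hr.1.le]
      exact lt_of_le_of_lt (mul_le_of_le_one_right hr.1.le (mem_closedBall_zero_iff.1 hz)) hr.2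
    have h2 : DifferentiableOn ℂ (fun z : ℂ => Q ((1 + r * z) / (1 - r * z))) (closedBall 0 1) :=
      hQ.comp (DifferentiableOn.div (by fun_prop) (by fun_prop)
        fun z hz => sub_ne_of_norm_lt (h1 z hz)) fun z hz => quot_mem (h1 z hz)
    have h3 := lam_disc hx (q := fun z : ℂ => Q ((1 + r * z) / (1 - r * z)))
      (DifferentiableOn.diffContOnCl (by rwa [closure_ball _ one_ne_zero]))
      fun ζ hζ => h0 _ (quot_mem (h1 ζ (by simp [hζ])))
    simpa only [hT, min_eq_left hr.2.le, max_eq_right hr.1.le] using h3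
  have h1 : 0 ≤ lam p fun w => Q (T 1 w) :=
    ge_of_tendsto ((hc.tendsto 1).mono_left (nhdsWithin_le_nhds (s := Iio 1)))
      (by filter_upwards [Ioo_mem_nhdsLT zero_lt_one] with r h using hr r h)
  rw [lam_congr hx (E' := Q) fun w hw => by rw [hT1 w hw]] at h1
  simpa only [lam, seg_int hx hg hQ.continuousOn] using h1

theorem exists_prim {Q : ℂ → ℂ} (hQ : DifferentiableOn ℂ Q RH) :
    ∃ g : ℂ → ℂ, ∀ w ∈ RH, HasDerivAt g (Q w) w := by
  have h1 : ∀ z ∈ ball (0 : ℂ) 1, ‖z‖ < ‖(1 : ℂ)‖ := fun z hz => by simpa using hz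
  have h2 : DifferentiableOn ℂ (fun z : ℂ => Q ((1 + z) / (1 - z)) * (2 / (1 - z) ^ 2))
      (ball 0 1) :=
    (hQ.comp (DifferentiableOn.div (by fun_prop) (by fun_prop)
      fun z hz => sub_ne_of_norm_lt (h1 z hz)) fun z hz => quot_mem (h1 z hz)).mul
      (DifferentiableOn.div (by fun_prop) (by fun_prop)
        fun z hz => pow_ne_zero _ (sub_ne_of_norm_lt (h1 z hz)))
  obtain ⟨G, hG⟩ := h2.isExactOn_ball
  refine ⟨fun w => G ((w - 1) / (w + 1)), fun w hw => ?_⟩
  have hn := add_one_ne hw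
  have hz : (w - 1) / (w + 1) ∈ ball (0 : ℂ) 1 := by
    rw [mem_ball_zero_iff, norm_div, div_lt_one (norm_pos_iff.2 hn)]
    exact norm_lt_RH hw
  have h3 := (hG _ hz).comp w (((hasDerivAt_id w).sub_const 1).div ((hasDerivAt_id w).add_const 1) hn)
  refine h3.congr_deriv ?_
  have e1 : 1 - (w - 1) / (w + 1) = 2 / (w + 1) := by field_simp; ring
  have e2 : 1 + (w - 1) / (w + 1) = 2 * w / (w + 1) := by field_simp; ring
  have e3 : 2 * w / (w + 1) / (2 / (w + 1)) = w := by field_simp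
  simp only [e1, e2, e3, id]
  field_simp
  ring

end Pool.Agent.MP_0641e2_an

end
end

section

/-! The semigroup in the right half-plane. -/

open Complex Set Filter Topology Metric

noncomputable section

namespace Pool.Agent.MP_0641e2_an

theorem rot_mem {z : ℂ} (hz : z ∈ MP_1a2790_an.H) : -I * z ∈ RH := by
  simpa [mem_RH] using MP_1a2790_an.mem_H.1 hz

theorem rot_mem' {w : ℂ} (hw : w ∈ RH) : I * w ∈ MP_1a2790_an.H := by
  simpa [MP_1a2790_an.mem_H] using mem_RH.1 hw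

theorem rot_rot (w : ℂ) : -I * (I * w) = w := by linear_combination -w * I_sq

theorem rot_diff {F : ℂ → ℂ} (hF : DifferentiableOn ℂ F RH) :
    DifferentiableOn ℂ (fun z => I * F (-I * z)) MP_1a2790_an.H :=
  (hF.comp (by fun_prop) fun _ hz => rot_mem hz).const_mul I

theorem sp_RH {F : ℂ → ℂ} (hF : DifferentiableOn ℂ F RH) (h0 : ∀ w ∈ RH, 0 ≤ (F w).re) {a b : ℂ}
    (ha : a ∈ RH) (hb : b ∈ RH) :
    ‖F a - F b‖ ^ 2 * (a.re * b.re) ≤ ‖a - b‖ ^ 2 * ((F a).re * (F b).re) := by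
  have := MP_1a2790_an.schwarzPick_closed (rot_diff hF)
    (fun z hz => by simpa using h0 _ (rot_mem hz)) (rot_mem' ha) (rot_mem' hb)
  simp only [rot_rot, ← mul_sub, norm_mul, norm_I, one_mul] at this
  simpa using this

theorem const_RH {F : ℂ → ℂ} (hF : DifferentiableOn ℂ F RH) (h0 : ∀ w ∈ RH, 0 ≤ (F w).re) {a b : ℂ}
    (ha : a ∈ RH) (h : (F a).re = 0) (hb : b ∈ RH) : F b = F a := by
  have := MP_1a2790_an.const_of_im_eq_zero (rot_diff hF)
    (fun z hz => by simpa using h0 _ (rot_mem hz)) (rot_mem' ha)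
    (by simp only [rot_rot]; simpa using h) (rot_mem' hb)
  simp only [rot_rot] at this
  exact mul_left_cancel₀ I_ne_zero this

theorem jwc_RH {F : ℂ → ℂ} (hF : DifferentiableOn ℂ F RH) (hm : MapsTo F RH RH) :
    ∃ α : ℝ, 0 ≤ α ∧ (∀ w ∈ RH, α * w.re ≤ (F w).re) ∧ ∀ K ε : ℝ, 0 < K → 0 < ε → ∃ R : ℝ,
      ∀ w ∈ RH, ‖w‖ ≤ K * w.re → R ≤ ‖w‖ → ‖F w - α * w‖ ≤ ε * ‖w‖ := by
  have hf : MP_1a2790_an.Hol fun z => I * F (-I * z) :=
    ⟨rot_diff hF, fun z hz => rot_mem' (hm (rot_mem hz))⟩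
  refine ⟨_, hf.cInf_nonneg, fun w hw => ?_, fun K ε hK hε => ?_⟩
  · have := hf.low_cInf _ (rot_mem' hw)
    simp only [rot_rot] at this
    simpa using this
  · obtain ⟨R, hR⟩ := hf.jwc hK hε
    refine ⟨R, fun w hw h1 h2 => ?_⟩
    have := hR _ (rot_mem' hw) (by simpa using h1) (by simpa using h2)
    simp only [rot_rot] at this
    rw [mul_left_comm, ← mul_sub] at this
    simpa using this

/-- the inverse of the Cayley map -/
def cinv (τ w : ℂ) : ℂ := τ * ((w - 1) / (w + 1))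

variable {τ : ℂ} {φ : ℝ → ℂ → ℂ}

theorem cay_mem (hτ : ‖τ‖ = 1) {z : ℂ} (hz : z ∈ ball (0 : ℂ) 1) : cay τ z ∈ RH :=
  quot_mem (by rw [hτ]; exact mem_ball_zero_iff.1 hz)

theorem cay_den (hτ : ‖τ‖ = 1) {z : ℂ} (hz : z ∈ ball (0 : ℂ) 1) : τ - z ≠ 0 :=
  sub_ne_of_norm_lt (by rw [hτ]; exact mem_ball_zero_iff.1 hz)

theorem cinv_mem (hτ : ‖τ‖ = 1) {w : ℂ} (hw : w ∈ RH) : cinv τ w ∈ ball (0 : ℂ) 1 := by
  rw [mem_ball_zero_iff, cinv, norm_mul, hτ, one_mul, norm_div,
    div_lt_one (norm_pos_iff.2 (add_one_ne hw))]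
  exact norm_lt_RH hw

theorem tau_ne (hτ : ‖τ‖ = 1) : τ ≠ 0 := norm_ne_zero_iff.1 (by rw [hτ]; exact one_ne_zero)

theorem cay_cinv (hτ : ‖τ‖ = 1) {w : ℂ} (hw : w ∈ RH) : cay τ (cinv τ w) = w := by
  have h1 := add_one_ne hw
  have h2 := tau_ne hτ
  rw [cay, div_eq_iff (cay_den hτ (cinv_mem hτ hw)), cinv]
  field_simp
  ring

theorem cinv_cay (hτ : ‖τ‖ = 1) {z : ℂ} (hz : z ∈ ball (0 : ℂ) 1) : cinv τ (cay τ z) = z := by
  have h1 := add_one_ne (cay_mem hτ hz)
  have h2 := cay_den hτ hz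
  rw [cinv, ← mul_div_assoc, div_eq_iff h1, cay]
  field_simp
  ring

theorem cay_zero (hτ : ‖τ‖ = 1) : cay τ 0 = 1 := by simp [cay, tau_ne hτ]

theorem hasDerivAt_cay (hτ : ‖τ‖ = 1) {z : ℂ} (hz : z ∈ ball (0 : ℂ) 1) :
    HasDerivAt (cay τ) (2 * τ / (τ - z) ^ 2) z := by
  have := ((hasDerivAt_id z).const_add τ).div ((hasDerivAt_id z).const_sub τ) (cay_den hτ hz)
  refine this.congr_deriv ?_
  simp only [id]
  congr 1
  ring

theorem diff_cay (hτ : ‖τ‖ = 1) : DifferentiableOn ℂ (cay τ) (ball 0 1) := fun _ hz =>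
  (hasDerivAt_cay hτ hz).differentiableAt.differentiableWithinAt

theorem diff_cinv : DifferentiableOn ℂ (cinv τ) RH :=
  (DifferentiableOn.div (by fun_prop) (by fun_prop) fun _ hw => add_one_ne hw).const_mul τ

theorem norm_tendsto (h : IsSemigroup φ) (hτ : IsDW φ τ) {z : ℂ} (hz : z ∈ ball (0 : ℂ) 1) :
    Tendsto (fun t => ‖cay τ (φ t z)‖) atTop atTop := by
  have h1 : Tendsto (fun t => ‖τ + φ t z‖) atTop (𝓝 2) := by
    have := ((hτ.2 z hz).const_add τ).norm
    rwa [← two_mul, norm_mul, hτ.1, mul_one, Complex.norm_two] at this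
  have h2 : Tendsto (fun t => ‖τ - φ t z‖) atTop (𝓝[>] 0) := by
    refine tendsto_nhdsWithin_iff.2 ⟨?_, ?_⟩
    · simpa using ((hτ.2 z hz).const_sub τ).norm
    · filter_upwards [eventually_ge_atTop 0] with t ht
      exact norm_pos_iff.2 (cay_den hτ.1 (h.maps t ht hz))
  refine (h1.pos_mul_atTop two_pos h2.inv_tendsto_nhdsGT_zero).congr fun t => ?_
  rw [cay, norm_div, div_eq_mul_inv]
  rfl

theorem julia_aux {F : ℂ → ℂ} (hF : DifferentiableOn ℂ F RH) (hm : MapsTo F RH RH) {z : ℕ → ℂ}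
    (hz : ∀ n, z n ∈ RH) (hs : ∀ n, F (z n) = z (n + 1))
    (ht : Tendsto (fun n => ‖z n‖) atTop atTop) {w : ℂ} (hw : w ∈ RH) : w.re ≤ (F w).re := by
  by_contra hc
  rw [not_le] at hc
  have hw0 : 0 < w.re := hw
  have hF0 : 0 < (F w).re := hm hw
  obtain ⟨κ, hκ⟩ : ∃ κ, κ = (F w).re / w.re := ⟨_, rfl⟩
  have κ0 : 0 < κ := hκ ▸ div_pos hF0 hw0
  have κ1 : κ < 1 := hκ ▸ (div_lt_one hw0).2 hc
  have κe : (F w).re = κ * w.re := by rw [hκ]; field_simp
  obtain ⟨d, hd⟩ : ∃ d, d = ‖F w - w‖ := ⟨_, rfl⟩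
  have d0 : 0 ≤ d := hd ▸ norm_nonneg _
  obtain ⟨N, hN⟩ := eventually_atTop.1 (ht.eventually_ge_atTop (‖F w‖ + max d (3 * d / (1 - κ))))
  have step : ∀ n, N ≤ n → ‖w - z (n + 1)‖ ^ 2 / (z (n + 1)).re ≤ ‖w - z n‖ ^ 2 / (z n).re := by
    intro n hn
    have a := sp_RH hF (fun w hw => (hm hw).le) hw (hz n)
    rw [hs, κe] at a
    have z0 : 0 < (z n).re := hz n
    have z1 : 0 < (z (n + 1)).re := hz (n + 1)
    obtain ⟨u, hu⟩ : ∃ u, u = ‖F w - z (n + 1)‖ := ⟨_, rfl⟩
    have b := hN (n + 1) (by omega)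
    have c : ‖z (n + 1)‖ ≤ ‖F w‖ + u := by
      rw [hu]
      simpa using norm_sub_le (F w) (F w - z (n + 1))
    have u1 : d ≤ u := by linarith [le_max_left d (3 * d / (1 - κ))]
    have u2 : 3 * d ≤ u * (1 - κ) :=
      (div_le_iff₀ (sub_pos.2 κ1)).1 (by linarith [le_max_right d (3 * d / (1 - κ))])
    have e : ‖w - z (n + 1)‖ ≤ u + d := by
      rw [hu, hd]
      simpa using norm_sub_le (F w - z (n + 1)) (F w - w)
    have f : κ * ‖w - z (n + 1)‖ ^ 2 ≤ u ^ 2 := by
      have f1 : ‖w - z (n + 1)‖ ^ 2 ≤ (u + d) ^ 2 := by gcongr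
      have f2 : (u + d) ^ 2 ≤ u ^ 2 + 3 * d * u := by nlinarith
      have f3 : κ * ‖w - z (n + 1)‖ ^ 2 ≤ κ * (u ^ 2 + 3 * d * u) := by gcongr; linarith
      have f4 : 3 * d * u ≤ u * (1 - κ) * u := by gcongr; linarith
      have f5 : 0 ≤ 3 * d * u := by nlinarith
      nlinarith
    rw [← hu] at a
    rw [div_le_div_iff₀ z1 z0]
    have g := mul_le_mul_of_nonneg_right f (mul_pos hw0 z0).le
    refine le_of_mul_le_mul_left ?_ (mul_pos κ0 hw0)
    nlinarith
  have bd : ∀ n, N ≤ n → ‖w - z n‖ ^ 2 / (z n).re ≤ ‖w - z N‖ ^ 2 / (z N).re := fun n hn => by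
    induction n, hn using Nat.le_induction with
    | base => exact le_rfl
    | succ k hk ih => exact (step k hk).trans ih
  obtain ⟨n, hn, h2, h3⟩ := ((eventually_ge_atTop N).and ((ht.eventually_ge_atTop (2 * ‖w‖)).and
    (ht.eventually_gt_atTop (4 * (‖w - z N‖ ^ 2 / (z N).re))))).exists
  have a := bd n hn
  have z0 : 0 < (z n).re := hz n
  rw [div_le_iff₀ z0] at a
  have b : ‖z n‖ ≤ 2 * ‖w - z n‖ := by
    have := norm_sub_le w (w - z n)
    rw [sub_sub_cancel] at this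
    linarith
  have c := re_le_norm (z n)
  have e : ‖z n‖ ^ 2 ≤ (2 * ‖w - z n‖) ^ 2 := by gcongr
  have f := mul_lt_mul_of_pos_right h3 z0
  have g := mul_le_mul_of_nonneg_left c (norm_nonneg (z n))
  nlinarith

theorem julia (h : IsSemigroup φ) (hτ : IsDW φ τ) {s : ℝ} (hs : 0 ≤ s) {z : ℂ}
    (hz : z ∈ ball (0 : ℂ) 1) : (cay τ z).re ≤ (cay τ (φ s z)).re := by
  rcases hs.eq_or_lt with rfl | hs0
  · rw [h.zero z hz]
  have h0 : (0 : ℂ) ∈ ball (0 : ℂ) 1 := mem_ball_self one_pos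
  have hn : ∀ n : ℕ, 0 ≤ n * s := fun n => by positivity
  have := julia_aux (F := fun w => cay τ (φ s (cinv τ w))) (z := fun n => cay τ (φ (n * s) 0))
    ((diff_cay hτ.1).comp ((h.holo s hs).comp diff_cinv fun w hw => cinv_mem hτ.1 hw)
      fun w hw => h.maps s hs (cinv_mem hτ.1 hw))
    (fun w hw => cay_mem hτ.1 (h.maps s hs (cinv_mem hτ.1 hw)))
    (fun n => cay_mem hτ.1 (h.maps _ (hn n) h0))
    (fun n => by
      simp only [cinv_cay hτ.1 (h.maps _ (hn n) h0), ← h.add _ _ (hn n) hs 0 h0]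
      congr 2
      push_cast
      ring)
    ((norm_tendsto h hτ h0).comp (tendsto_natCast_atTop_atTop.atTop_mul_const hs0))
    (cay_mem hτ.1 hz)
  simpa only [cinv_cay hτ.1 hz] using this

/-- a holomorphic function with nonnegative real part -/
structure Her (P : ℂ → ℂ) : Prop where
  diff : DifferentiableOn ℂ P RH
  nonneg : ∀ w ∈ RH, 0 ≤ (P w).re

/-- an orbit of the vector field -/
structure Orb (P : ℂ → ℂ) (w : ℝ → ℂ) : Prop where
  mem : ∀ t, 0 ≤ t → w t ∈ RH
  der : ∀ t, 0 ≤ t → HasDerivWithinAt w (P (w t)) (Ici 0) t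

theorem exists_flow (h : IsSemigroup φ) (hτ : IsDW φ τ) :
    ∃ P, Her P ∧ ∀ z ∈ ball (0 : ℂ) 1, Orb P fun t => cay τ (φ t z) := by
  obtain ⟨G, hG, hd⟩ := h.exists_gen
  have orb : ∀ z ∈ ball (0 : ℂ) 1, Orb (fun w => 2 * τ / (τ - cinv τ w) ^ 2 * G (cinv τ w))
      fun t => cay τ (φ t z) := fun z hz =>
    ⟨fun t ht => cay_mem hτ.1 (h.maps t ht hz), fun t ht => by
      simp only [cinv_cay hτ.1 (h.maps t ht hz)]
      exact (hasDerivAt_cay hτ.1 (h.maps t ht hz)).comp_hasDerivWithinAt t (hd z hz t ht)⟩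
  refine ⟨_, ⟨?_, fun w hw => ?_⟩, orb⟩
  · exact (DifferentiableOn.div (differentiableOn_const _) ((diff_cinv.const_sub τ).pow 2)
      fun w hw => pow_ne_zero _ (cay_den hτ.1 (cinv_mem hτ.1 hw))).mul
      (hG.comp diff_cinv fun w hw => cinv_mem hτ.1 hw)
  · have hz := cinv_mem hτ.1 hw
    have h1 := reCLM.hasFDerivAt.comp_hasDerivWithinAt 0 ((orb _ hz).der 0 le_rfl)
    simp only [h.zero _ hz, cay_cinv hτ.1 hw] at h1
    rw [hasDerivWithinAt_iff_tendsto_slope, Ici_sdiff_left] at h1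
    refine ge_of_tendsto h1 (eventually_nhdsWithin_of_forall fun s hs => ?_)
    rw [slope_def_field, sub_zero]
    refine div_nonneg (sub_nonneg.2 ?_) (le_of_lt hs)
    simpa [h.zero _ hz] using julia h hτ (le_of_lt hs) hz

end Pool.Agent.MP_0641e2_an

end
end

section

/-! Monotone quantities along orbits. -/

open Complex Set Filter Topology Metric
open scoped ComplexConjugate Real

noncomputable section

namespace Pool.Agent.MP_0641e2_an

theorem le_of_der {f f' : ℝ → ℝ} {a b : ℝ} (ha : 0 ≤ a) (hab : a ≤ b)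
    (hd : ∀ t ∈ Icc a b, HasDerivWithinAt f (f' t) (Ici 0) t) (hp : ∀ t ∈ Ioo a b, 0 ≤ f' t) :
    f a ≤ f b := by
  have hs : Icc a b ⊆ Ici 0 := fun t ht => ha.trans ht.1
  refine monotoneOn_of_hasDerivWithinAt_nonneg (convex_Icc a b) (f' := f')
    (fun t ht => (hd t ht).continuousWithinAt.mono hs)
    (fun t ht => (hd t (interior_subset ht)).mono (interior_subset.trans hs))
    (fun t ht => hp t (by rwa [interior_Icc] at ht)) (left_mem_Icc.2 hab) (right_mem_Icc.2 hab) hab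

theorem eq_of_der {f : ℝ → ℝ} {b : ℝ} (hb : 0 ≤ b)
    (hd : ∀ t, 0 ≤ t → HasDerivWithinAt f 0 (Ici 0) t) : f b = f 0 := by
  have h1 := le_of_der (f' := fun _ => 0) le_rfl hb (fun t ht => hd t ht.1) fun _ _ => le_rfl
  have h2 := le_of_der (f := fun t => -f t) (f' := fun _ => -0) le_rfl hb
    (fun t ht => (hd t ht.1).neg) fun _ _ => by simp
  linarith

variable {P : ℂ → ℂ} {w : ℝ → ℂ}

theorem Orb.dre (h : Orb P w) {t : ℝ} (ht : 0 ≤ t) :
    HasDerivWithinAt (fun t => (w t).re) (P (w t)).re (Ici 0) t :=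
  reCLM.hasFDerivAt.comp_hasDerivWithinAt t (h.der t ht)

theorem Orb.dim (h : Orb P w) {t : ℝ} (ht : 0 ≤ t) :
    HasDerivWithinAt (fun t => (w t).im) (P (w t)).im (Ici 0) t :=
  imCLM.hasFDerivAt.comp_hasDerivWithinAt t (h.der t ht)

theorem Orb.re_le (hP : Her P) (h : Orb P w) {s t : ℝ} (hs : 0 ≤ s) (hst : s ≤ t) :
    (w s).re ≤ (w t).re :=
  le_of_der hs hst (fun _ hr => h.dre (hs.trans hr.1)) fun r hr =>
    hP.nonneg _ (h.mem r (hs.trans hr.1.le))

theorem conj_mem {z : ℂ} (hz : z ∈ RH) : conj z ∈ RH := by simpa [mem_RH] using mem_RH.1 hz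

theorem Her.mirror (hP : Her P) : Her (conj ∘ P ∘ conj) :=
  ⟨fun z hz => (differentiableAt_conj_conj_iff.2
      (hP.diff.differentiableAt (isOpen_RH.mem_nhds (conj_mem hz)))).differentiableWithinAt,
    fun z hz => by simpa using hP.nonneg _ (conj_mem hz)⟩

theorem Orb.mirror (h : Orb P w) : Orb (conj ∘ P ∘ conj) fun t => conj (w t) :=
  ⟨fun t ht => conj_mem (h.mem t ht), fun t ht =>
    (conjCLE.hasFDerivAt.comp_hasDerivWithinAt t (h.der t ht)).congr_deriv (by simp)⟩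

theorem Her.flat (hP : Her P) {c : ℂ} (hc : c ∈ RH) (h0 : (P c).re = 0) {z : ℂ} (hz : z ∈ RH) :
    P z = P c := const_RH hP.diff hP.nonneg hc h0 hz

theorem Orb.re_eq (hP : Her P) (h : Orb P w) {c : ℂ} (hc : c ∈ RH) (h0 : (P c).re = 0) {t : ℝ}
    (ht : 0 ≤ t) : (w t).re = (w 0).re :=
  eq_of_der (f := fun t => (w t).re) ht fun r hr => by
    have := h.dre hr
    rwa [hP.flat hc h0 (h.mem r hr), h0] at this

theorem key (hP : Her P) (h : Orb P w) {t b : ℝ} (ht : 0 ≤ t) (hb : 0 < b) (hb1 : b ≤ (w 0).re)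
    {u y : ℝ} (hu : u = (w t).re - (w 0).re) (hy : y = (w t).im - (w 0).im) :
    0 ≤ acot (y / (u + b)) * ((u + b) ^ 2 + y ^ 2) * (P (w t)).re +
      u * ((u + b) * (P (w t)).im - y * (P (w t)).re) := by
  by_cases hc : ∃ c ∈ RH, (P c).re = 0
  · obtain ⟨c, hc, h0⟩ := hc
    rw [hP.flat hc h0 (h.mem t ht), h0, hu, h.re_eq hP hc h0 ht]
    simp
  have hne : ∀ c ∈ RH, P c ≠ 0 := fun c h1 h2 => hc ⟨c, h1, by rw [h2, zero_re]⟩
  have hQ : DifferentiableOn ℂ (fun z => (P z)⁻¹) RH := hP.diff.inv hne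
  obtain ⟨g, hg⟩ := exists_prim hQ
  have hgi : (g (w t)).im = (g (w 0)).im := eq_of_der (f := fun t => (g (w t)).im) ht fun r hr => by
    have h1 := (hg _ (h.mem r hr)).comp_hasDerivWithinAt r (h.der r hr)
    rw [inv_mul_cancel₀ (hne _ (h.mem r hr))] at h1
    exact imCLM.hasFDerivAt.comp_hasDerivWithinAt r h1
  have hb0 : (b : ℂ) ≠ 0 := ofReal_ne_zero.2 hb.ne'
  have hm : ∀ z ∈ RH, w 0 - b + b * z ∈ RH := fun z hz => by
    have := mul_pos hb (mem_RH.1 hz)
    simp only [mem_RH, add_re, sub_re, ofReal_re, re_ofReal_mul]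
    linarith
  have hl : ∀ z : ℂ, HasDerivAt (fun z => w 0 - b + b * z) b z := fun z => by
    simpa using ((hasDerivAt_id z).const_mul (b : ℂ)).const_add (w 0 - b)
  have u0 : 0 ≤ u := hu ▸ sub_nonneg.2 (h.re_le hP le_rfl ht)
  obtain ⟨p, hp⟩ : ∃ p : ℂ, p = ⟨(u + b) / b, y / b⟩ := ⟨_, rfl⟩
  have p1 : p.re = (u + b) / b := by rw [hp]
  have p2 : p.im = y / b := by rw [hp]
  have pe : w 0 - b + b * p = w t := by
    apply Complex.ext
    · simp only [add_re, sub_re, ofReal_re, re_ofReal_mul, p1]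
      field_simp
      linarith
    · simp only [add_im, sub_im, ofReal_im, im_ofReal_mul, p2]
      field_simp
      linarith
  have := lin_ineq (p := p) (by rw [p1, le_div_iff₀ hb]; linarith)
    (Q := fun z => (P (w 0 - b + b * z))⁻¹) (g := fun z => g (w 0 - b + b * z) / b)
    (fun z hz => (((hg _ (hm z hz)).comp z (hl z)).div_const (b : ℂ)).congr_deriv (by field_simp))
    (hQ.comp (fun z _ => (hl z).differentiableAt.differentiableWithinAt) hm)
    (fun z hz => by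
      rw [inv_re]
      exact div_nonneg (hP.nonneg _ (hm z hz)) (normSq_nonneg _))
  have e : (g (w t) / b - g (w 0) / b).im = 0 := by
    rw [← sub_div, div_ofReal_im, sub_im, hgi, sub_self, zero_div]
  simp only [pe, mul_one, sub_add_cancel, e, add_zero, inv_re, inv_im, AA, p1, p2,
    div_div_div_cancel_right₀ hb.ne'] at this
  have n0 := normSq_pos.2 (hne _ (h.mem t ht))
  have ub : 0 < u + b := by linarith
  refine le_of_le_of_eq (mul_nonneg this (by positivity : 0 ≤ normSq (P (w t)) * b * (u + b))) ?_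
  field_simp
  ring

theorem key' (hP : Her P) (h : Orb P w) {t b : ℝ} (ht : 0 ≤ t) (hb : 0 ≤ b) (hb1 : b ≤ (w 0).re)
    {u y : ℝ} (hu : u = (w t).re - (w 0).re) (hy : y = (w t).im - (w 0).im) (u0 : 0 < u) :
    0 ≤ acot (y / (u + b)) * ((u + b) ^ 2 + y ^ 2) * (P (w t)).re +
      u * ((u + b) * (P (w t)).im - y * (P (w t)).re) := by
  rcases hb.eq_or_lt with rfl | hb0
  swap
  · exact key hP h ht hb0 hb1 hu hy
  have hc : ContinuousAt (fun b : ℝ => acot (y / (u + b)) * ((u + b) ^ 2 + y ^ 2) * (P (w t)).re +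
      u * ((u + b) * (P (w t)).im - y * (P (w t)).re)) 0 := by
    have : ContinuousAt (fun b : ℝ => y / (u + b)) 0 :=
      continuousAt_const.div (by fun_prop) (by simpa using u0.ne')
    have h2 : ContinuousAt (fun b : ℝ => acot (y / (u + b))) 0 :=
      continuousAt_const.sub (Real.continuous_arctan.continuousAt.comp this)
    exact ((h2.mul (by fun_prop)).mul continuousAt_const).add (by fun_prop)
  refine ge_of_tendsto (hc.tendsto.mono_left (nhdsWithin_le_nhds (s := Ioi 0))) ?_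
  filter_upwards [Ioc_mem_nhdsGT (mem_RH.1 (h.mem 0 le_rfl))] with b hb
  exact key hP h ht hb.1 hb.2 hu hy

theorem sharp (hP : Her P) (h : Orb P w) {a : ℂ} (ha : a.im = (w 0).im) (h0 : 0 ≤ a.re)
    (h1 : a.re ≤ (w 0).re) {s t : ℝ} (hs : 0 ≤ s) (hst : s ≤ t) :
    ((w s).re - (w 0).re) * (π / 2 - arg (w t - a)) ≤
      ((w t).re - (w 0).re) * (π / 2 - arg (w s - a)) := by
  have x0 := h.re_le hP le_rfl hs
  have x1 := h.re_le hP hs hst
  rcases x0.eq_or_lt with e | x2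
  · rw [← e, sub_self, zero_mul]
    refine mul_nonneg (by linarith) (sub_nonneg.2 (arg_le_pi_div_two_iff.2 (Or.inl ?_)))
    rw [sub_re]
    linarith
  have hr : ∀ r ∈ Icc s t, (w 0).re < (w r).re := fun r hr => x2.trans_le (h.re_le hP hs hr.1)
  have hp : ∀ r ∈ Icc s t, 0 < (w r).re - a.re := fun r k => by linarith [hr r k]
  have ar : ∀ r ∈ Icc s t, π / 2 - arg (w r - a) =
      acot (((w r).im - a.im) / ((w r).re - a.re)) := fun r k => by
    rw [arg_eq (by rw [sub_re]; exact hp r k), sub_re, sub_im, acot]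
  rw [ar s (left_mem_Icc.2 hst), ar t (right_mem_Icc.2 hst),
    ← div_le_div_iff₀ (acot_pos _) (acot_pos _)]
  refine le_of_der (f := fun r => ((w r).re - (w 0).re) /
    acot (((w r).im - a.im) / ((w r).re - a.re))) hs hst (fun r k =>
      ((h.dre (hs.trans k.1)).sub_const _).div ((((h.dim (hs.trans k.1)).sub_const _).div
        ((h.dre (hs.trans k.1)).sub_const _) (hp r k).ne').arctan.const_sub (π / 2))
        (acot_pos _).ne') fun r k => ?_
  have k' := Ioo_subset_Icc_self k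
  have hk := key' hP h (hs.trans k'.1) (sub_nonneg.2 h1) (by linarith) rfl rfl (sub_pos.2 (hr r k'))
  rw [sub_add_sub_cancel, ← ha] at hk
  have q := hp r k'
  refine div_nonneg (le_of_le_of_eq (div_nonneg hk (by positivity :
    0 ≤ ((w r).re - a.re) ^ 2 + ((w r).im - a.im) ^ 2)) ?_) (sq_nonneg _)
  simp only [acot, Pi.div_apply]
  field_simp
  ring

theorem bk_pos (hP : Her P) (h : Orb P w) (h0 : (w 0).im = 0) {t : ℝ} (ht : 0 ≤ t)
    (u0 : (w 0).re < (w t).re) (y0 : 0 ≤ (w t).im) :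
    0 ≤ (w t).re * (P (w t)).re + (w t).im * (P (w t)).im := by
  have hk := key' hP h ht le_rfl (mem_RH.1 (h.mem 0 le_rfl)).le rfl rfl (sub_pos.2 u0)
  obtain ⟨u, hu⟩ : ∃ u, u = (w t).re - (w 0).re := ⟨_, rfl⟩
  have up : 0 < u := hu ▸ sub_pos.2 u0
  rw [← hu, h0, sub_zero, add_zero] at hk
  have a := mul_acot_le ((w t).im / u)
  rw [div_mul_eq_mul_div, div_le_one up] at a
  have b := hP.nonneg _ (h.mem t ht)
  have c := mul_nonneg (mem_RH.1 (h.mem 0 le_rfl)).le b
  have d := mul_le_mul_of_nonneg_right a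
    (by positivity : 0 ≤ (u ^ 2 + (w t).im ^ 2) * (P (w t)).re)
  have e := mul_nonneg y0 hk
  have f : 0 ≤ u * (P (w t)).re + (w t).im * (P (w t)).im :=
    le_of_mul_le_mul_left (by nlinarith) (pow_pos up 2)
  have g : (w t).re = u + (w 0).re := by linarith
  rw [g]
  nlinarith

theorem bk_der (hP : Her P) (h : Orb P w) (h0 : (w 0).im = 0) {t : ℝ} (ht : 0 < t) :
    0 ≤ (w t).re * (P (w t)).re + (w t).im * (P (w t)).im := by
  by_cases hc : ∃ c ∈ RH, (P c).re = 0
  · obtain ⟨c, hc, h1⟩ := hc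
    have := le_of_der (f := fun r => (w r).im * (P c).im) le_rfl ht.le
      (fun r k => (h.dim k.1).mul_const (P c).im) fun r k => by
        rw [hP.flat hc h1 (h.mem r k.1.le)]
        exact mul_self_nonneg _
    rw [hP.flat hc h1 (h.mem t ht.le), h1]
    simpa [h0] using this
  have u0 : (w 0).re < (w t).re :=
    strictMonoOn_of_hasDerivWithinAt_pos (convex_Ici 0) (f := fun t => (w t).re)
      (fun r k => (h.dre k).continuousWithinAt)
      (fun r k => (h.dre (interior_subset k)).mono interior_subset)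
      (fun r k => (hP.nonneg _ (h.mem r (interior_subset k))).lt_of_ne fun e =>
        hc ⟨_, h.mem r (interior_subset k), e.symm⟩) self_mem_Ici ht.le ht
  rcases le_total 0 (w t).im with y0 | y0
  · exact bk_pos hP h h0 ht.le u0 y0
  · simpa using bk_pos hP.mirror h.mirror (by simpa using h0) ht.le (by simpa using u0)
      (by simpa using y0)

theorem bk (hP : Her P) (h : Orb P w) (h0 : (w 0).im = 0) {s t : ℝ} (hs : 0 ≤ s) (hst : s ≤ t) :
    ‖w s‖ ≤ ‖w t‖ := by
  refine le_of_pow_le_pow_left₀ two_ne_zero (norm_nonneg _) ?_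
  simp only [Complex.sq_norm, normSq_apply]
  refine le_of_der (f := fun r => (w r).re * (w r).re + (w r).im * (w r).im) hs hst
    (fun r k => ((h.dre (hs.trans k.1)).mul (h.dre (hs.trans k.1))).add
      ((h.dim (hs.trans k.1)).mul (h.dim (hs.trans k.1)))) fun r k => ?_
  linarith [bk_der hP h h0 (hs.trans_lt k.1)]

end Pool.Agent.MP_0641e2_an

end
end
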