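import Mathlib
import Pool.Agent.Mg.F0641e2.Gbf8884
import Pool.Agent.MP_1a2790_an.Normal

section

/-! A curve in the strip and a holomorphic function with bounded imaginary part. -/

open Complex Set Filter Topology Metric
open scoped Real

noncomputable section

namespace Pool.Agent.MP_0641e2_an

/-- a holomorphic function on the strip with bounded imaginary part, and a primitive -/
structure Prim (Λ l : ℂ → ℂ) : Prop where
  der : ∀ z : ℂ, |z.im| < π / 2 → HasDerivAt Λ (l z) z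
  bd : ∀ z : ℂ, |z.im| < π / 2 → |(l z).im| ≤ π

/-- a curve in the strip with the two monotonicity properties -/
structure Crv (ζ D : ℝ → ℂ) : Prop where
  der : ∀ t, 0 ≤ t → HasDerivWithinAt ζ (D t) (Ici 0) t
  mem : ∀ t, 0 ≤ t → |(ζ t).im| < π / 2
  re : ∀ t, 0 < t → 0 ≤ (D t).re
  jul : ∀ t, 0 < t → Real.sin (ζ t).im * (D t).im ≤ Real.cos (ζ t).im * (D t).re

variable {Λ l : ℂ → ℂ} {ζ D : ℝ → ℂ}

theorem Prim.neg (h : Prim Λ l) : Prim (fun z => -Λ z) fun z => -l z :=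
  ⟨fun z hz => (h.der z hz).neg, fun z hz => by simpa using h.bd z hz⟩

theorem Prim.vert (h : Prim Λ l) {δ e : ℝ} (hδ : 0 < δ) (hδ1 : δ ≤ 1 / 2) {z : ℂ}
    (he : ∀ w : ℂ, w.re = z.re → |w.im| ≤ π / 2 - δ → |(l w).im| ≤ e) (hz : |z.im| < π / 2) :
    |(Λ z).re - (Λ z.re).re| ≤ π * δ + e * (π / 2) := by
  have p3 := Real.pi_gt_three
  have hd : ∀ y : ℝ, |y| < π / 2 → HasDerivAt (fun y : ℝ => (Λ (z.re + y * I)).re)
      (-(l (z.re + y * I)).im) y := fun y hy => by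
    have h1 : HasDerivAt (fun u : ℂ => z.re + u * I) I (y : ℂ) := by
      simpa using ((hasDerivAt_id (y : ℂ)).mul_const I).const_add (z.re : ℂ)
    have h2 := ((h.der (z.re + y * I) (by simpa using hy)).comp (y : ℂ) h1).comp_ofReal
    exact (reCLM.hasFDerivAt.comp_hasDerivAt y h2).congr_deriv (by simp)
  obtain ⟨y, hy⟩ : ∃ y, y = max (-(π / 2 - δ)) (min z.im (π / 2 - δ)) := ⟨_, rfl⟩
  have hz' := abs_lt.1 hz
  have y1 : -(π / 2 - δ) ≤ y := hy ▸ le_max_left _ _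
  have y2 : y ≤ π / 2 - δ := hy ▸ max_le (by linarith) (min_le_right _ _)
  have y3 : |z.im - y| ≤ δ := by
    rw [hy, abs_le]
    simp only [max_def, min_def]
    split_ifs <;> constructor <;> linarith
  have e0 : 0 ≤ e := (abs_nonneg _).trans (he z.re (by simp) (by simp; linarith))
  have a := (convex_Ioo (-(π / 2)) (π / 2)).norm_image_sub_le_of_norm_hasDerivWithin_le (C := π)
    (fun y k => (hd y (abs_lt.2 k)).hasDerivWithinAt)
    (fun y k => by simpa using h.bd (z.re + y * I) (by simpa using abs_lt.2 k))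
    (show y ∈ Ioo _ _ from ⟨by linarith, by linarith⟩) (show z.im ∈ Ioo _ _ from hz')
  have b := (convex_Icc (-(π / 2 - δ)) (π / 2 - δ)).norm_image_sub_le_of_norm_hasDerivWithin_le
    (C := e) (fun y k => (hd y ((abs_le.2 k).trans_lt (by linarith))).hasDerivWithinAt)
    (fun y k => by simpa using he (z.re + y * I) (by simp) (by simpa using abs_le.2 k))
    (show (0 : ℝ) ∈ Icc _ _ from ⟨by linarith, by linarith⟩) (show y ∈ Icc _ _ from ⟨y1, y2⟩)
  simp only [Real.norm_eq_abs, re_add_im, ofReal_zero, zero_mul, add_zero, sub_zero] at a b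
  have c : |y| ≤ π / 2 := abs_le.2 ⟨by linarith, by linarith⟩
  have a' := mul_le_mul_of_nonneg_left y3 Real.pi_pos.le
  have b' := mul_le_mul_of_nonneg_left c e0
  linarith [abs_sub_le (Λ z).re (Λ (z.re + y * I)).re (Λ z.re).re]

theorem Prim.horiz (h : Prim Λ l) {a b m : ℝ} (hab : a ≤ b) (hm : ∀ x : ℝ, a ≤ x → (l x).re ≤ m) :
    (Λ b).re - (Λ a).re ≤ m * (b - a) := by
  have hd : ∀ x : ℝ, HasDerivAt (fun x : ℝ => (Λ x).re) (l x).re x := fun x =>
    reCLM.hasFDerivAt.comp_hasDerivAt x (h.der x (by simpa using Real.pi_pos)).comp_ofReal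
  exact (convex_Ici a).image_sub_le_mul_sub_of_deriv_le
    (fun x _ => (hd x).continuousAt.continuousWithinAt)
    (fun x _ => (hd x).differentiableAt.differentiableWithinAt)
    (fun x hx => by rw [(hd x).deriv]; exact hm x (interior_subset hx)) a self_mem_Ici b hab hab

theorem Crv.dre (h : Crv ζ D) {t : ℝ} (ht : 0 ≤ t) :
    HasDerivWithinAt (fun t => (ζ t).re) (D t).re (Ici 0) t :=
  reCLM.hasFDerivAt.comp_hasDerivWithinAt t (h.der t ht)

theorem Crv.dim (h : Crv ζ D) {t : ℝ} (ht : 0 ≤ t) :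
    HasDerivWithinAt (fun t => (ζ t).im) (D t).im (Ici 0) t :=
  imCLM.hasFDerivAt.comp_hasDerivWithinAt t (h.der t ht)

theorem Crv.re_le (h : Crv ζ D) {s t : ℝ} (hs : 0 ≤ s) (hst : s ≤ t) : (ζ s).re ≤ (ζ t).re :=
  le_of_der hs hst (fun _ hr => h.dre (hs.trans hr.1)) fun r hr => h.re r (hs.trans_lt hr.1)

theorem cos_small {θ δ : ℝ} (h : |θ| < π / 2) (h1 : π / 2 - δ < |θ|) :
    0 ≤ Real.cos θ ∧ Real.cos θ ≤ δ := by
  refine ⟨(Real.cos_pos_of_mem_Ioo (abs_lt.1 h)).le, ?_⟩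
  rw [← Real.cos_abs, ← Real.sin_pi_div_two_sub]
  linarith [Real.sin_le (x := π / 2 - |θ|) (by linarith)]

theorem core (hp : Prim Λ l) (h : Crv ζ D) {δ e m η R a b : ℝ} (hδ : 0 < δ) (hδ1 : δ ≤ 1 / 2)
    (hη : 0 < η) (reg : ∀ z : ℂ, R ≤ z.re → |z.im| ≤ π / 2 - δ → (l z).re ≤ m ∧ |(l z).im| ≤ e)
    (ha : 0 ≤ a) (hab : a ≤ b) (hR : R ≤ (ζ a).re) (hb : (ζ b).re = (ζ a).re + η)
    (low : ∀ t ∈ Icc a b, m + η ≤ (l (ζ t)).re) : η ^ 2 ≤ 4 * π * δ * (1 + η) + e * π := by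
  have p3 := Real.pi_gt_three
  have cs : ∀ t ∈ Icc a b, 0 ≤ Real.cos (ζ t).im ∧ Real.cos (ζ t).im ≤ δ := fun t k =>
    cos_small (h.mem t (ha.trans k.1)) (not_le.1 fun c => by
      linarith [(reg _ (hR.trans (h.re_le ha k.1)) c).1, low t k])
  have k1 := le_of_der (f := fun t => (Λ (ζ t)).re + (4 * π * δ - (m + η)) * (ζ t).re +
      2 * π * Real.cos (ζ t).im) ha hab
    (fun t k => ((reCLM.hasFDerivAt.comp_hasDerivWithinAt t
      ((hp.der _ (h.mem t (ha.trans k.1))).comp_hasDerivWithinAt t (h.der t (ha.trans k.1)))).add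
      ((h.dre (ha.trans k.1)).const_mul _)).add ((h.dim (ha.trans k.1)).cos.const_mul _))
    fun t k => by
      have k' := Ioo_subset_Icc_self k
      have t0 := ha.trans_lt k.1
      have c := cs t k'
      have r := h.re t t0
      have j := (h.jul t t0).trans (mul_le_mul_of_nonneg_right c.2 r)
      have s : 1 / 2 ≤ |Real.sin (ζ t).im| := by
        refine le_of_pow_le_pow_left₀ two_ne_zero (abs_nonneg _) ?_
        rw [sq_abs, Real.sin_sq]
        nlinarith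
      have u : |(D t).im| ≤ 4 * (δ * (D t).re) - 2 * (Real.sin (ζ t).im * (D t).im) := by
        have u1 := mul_le_mul_of_nonneg_right s (abs_nonneg (D t).im)
        rw [← abs_mul] at u1
        have u2 := mul_nonneg hδ.le r
        rcases abs_cases (Real.sin (ζ t).im * (D t).im) with u3 | u3 <;> linarith [u3.1, u3.2]
      have v : (l (ζ t)).im * (D t).im ≤ π * |(D t).im| :=
        (le_abs_self _).trans (by
          rw [abs_mul]
          exact mul_le_mul_of_nonneg_right (hp.bd _ (h.mem t t0.le)) (abs_nonneg _))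
      have x := mul_le_mul_of_nonneg_right (low t k') r
      have y := mul_le_mul_of_nonneg_left u Real.pi_pos.le
      simp only [reCLM_apply, mul_re]
      linarith
  have hb0 := ha.trans hab
  have v1 := abs_le.1 (hp.vert hδ hδ1 (z := ζ a) (fun w e1 e2 => (reg w (e1 ▸ hR) e2).2) (h.mem a ha))
  have v2 := abs_le.1 (hp.vert hδ hδ1 (z := ζ b)
    (fun w e1 e2 => (reg w (by linarith) e2).2) (h.mem b hb0))
  have v3 := hp.horiz (a := (ζ a).re) (b := (ζ b).re) (m := m) (by linarith) fun x hx =>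
    (reg x (hR.trans hx) (by simp; linarith)).1
  have c1 := mul_nonneg Real.pi_pos.le (cs a (left_mem_Icc.2 hab)).1
  have c2 := mul_le_mul_of_nonneg_left (cs b (right_mem_Icc.2 hab)).2 Real.pi_pos.le
  simp only [hb] at k1 v3
  rw [hb] at v2
  linarith [v1.1, v2.2]

theorem Crv.cont (h : Crv ζ D) {a b : ℝ} (ha : 0 ≤ a) :
    ContinuousOn (fun t => (ζ t).re) (Icc a b) := fun _ k =>
  (h.dre (ha.trans k.1)).continuousWithinAt.mono fun _ k' => ha.trans k'.1

theorem upper (hp : Prim Λ l) (h : Crv ζ D) (ht : Tendsto (fun t => (ζ t).re) atTop atTop)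
    (hm : ∀ s t, 0 ≤ s → s ≤ t → (l (ζ s)).re + (ζ s).re ≤ (l (ζ t)).re + (ζ t).re)
    {δ e m η R : ℝ} (hδ : 0 < δ) (hδ1 : δ ≤ 1 / 2) (hη : 0 < η)
    (reg : ∀ z : ℂ, R ≤ z.re → |z.im| ≤ π / 2 - δ → (l z).re ≤ m ∧ |(l z).im| ≤ e)
    (hs : 4 * π * δ * (1 + η) + e * π < η ^ 2) : ∀ᶠ t in atTop, (l (ζ t)).re < m + 2 * η := by
  filter_upwards [eventually_ge_atTop 0, ht.eventually_ge_atTop R] with a ha hR
  by_contra c
  obtain ⟨T, T1, T2⟩ := ((eventually_ge_atTop a).and (ht.eventually_ge_atTop ((ζ a).re + η))).exists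
  obtain ⟨b, b1, b2⟩ := intermediate_value_Icc T1 (h.cont ha)
    (show (ζ a).re + η ∈ Icc _ _ from ⟨by linarith, T2⟩)
  have b3 : (ζ b).re = (ζ a).re + η := b2
  linarith [core hp h hδ hδ1 hη reg ha b1.1 hR b3 fun t k => by
    linarith [hm a t ha k.1, h.re_le (ha.trans k.1) k.2]]

theorem lower (hp : Prim Λ l) (h : Crv ζ D) (ht : Tendsto (fun t => (ζ t).re) atTop atTop)
    (hm : ∀ s t, 0 ≤ s → s ≤ t → (l (ζ s)).re + (ζ s).re ≤ (l (ζ t)).re + (ζ t).re)
    {δ e m η R : ℝ} (hδ : 0 < δ) (hδ1 : δ ≤ 1 / 2) (hη : 0 < η)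
    (reg : ∀ z : ℂ, R ≤ z.re → |z.im| ≤ π / 2 - δ → -(l z).re ≤ m ∧ |(l z).im| ≤ e)
    (hs : 4 * π * δ * (1 + η) + e * π < η ^ 2) : ∀ᶠ t in atTop, -(l (ζ t)).re < m + 2 * η := by
  filter_upwards [eventually_ge_atTop 0, ht.eventually_ge_atTop (R + η),
    ht.eventually_ge_atTop ((ζ 0).re + η)] with b hb hR h0
  by_contra c
  obtain ⟨a, a1, a2⟩ := intermediate_value_Icc hb (h.cont le_rfl)
    (show (ζ b).re - η ∈ Icc _ _ from ⟨by linarith, by linarith⟩)
  have a3 : (ζ a).re = (ζ b).re - η := a2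
  linarith [core hp.neg h hδ hδ1 hη (m := m) (e := e) (R := R)
    (fun z z1 z2 => by simpa using reg z z1 z2) a1.1 a1.2 (by linarith) (by linarith) fun t k => by
      rw [neg_re]
      linarith [hm t b (a1.1.trans k.1) k.2, h.re_le a1.1 k.1]]

end Pool.Agent.MP_0641e2_an

end
end

section

/-! The quotient of the moduli of two orbits for nested domains. -/

open Complex Set Filter Topology Metric
open scoped Real

noncomputable section

namespace Pool.Agent.MP_0641e2_an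

variable {P F : ℂ → ℂ} {w : ℝ → ℂ}

theorem slit {z : ℂ} (hz : z ∈ RH) : z ∈ slitPlane := Or.inl hz

theorem arg_lt {z : ℂ} (hz : z ∈ RH) : |arg z| < π / 2 := abs_arg_lt_pi_div_two_iff.2 (Or.inl hz)

theorem exp_mem {z : ℂ} (hz : |z.im| < π / 2) : exp z ∈ RH := by
  rw [mem_RH, exp_re]
  exact mul_pos (Real.exp_pos _) (Real.cos_pos_of_mem_Ioo (abs_lt.1 hz))

theorem Orb.crv (hP : Her P) (h : Orb P w) (h0 : (w 0).im = 0) :
    Crv (fun t => log (w t)) fun t => P (w t) / w t := by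
  refine ⟨fun t ht => (h.der t ht).clog_real (slit (h.mem t ht)),
    fun t ht => by rw [log_im]; exact arg_lt (h.mem t ht), fun t ht => ?_, fun t ht => ?_⟩
  · rw [div_re, ← add_div]
    exact div_nonneg (by linarith [bk_der hP h h0 ht]) (normSq_nonneg _)
  · have hw := slitPlane_ne_zero (slit (h.mem t ht.le))
    have a := hP.nonneg _ (h.mem t ht.le)
    rw [← div_mul_cancel₀ (P (w t)) hw, mul_re] at a
    rw [log_im, sin_arg, cos_arg hw, div_mul_eq_mul_div, div_mul_eq_mul_div]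
    exact div_le_div_of_nonneg_right (by linarith) (norm_nonneg _)

theorem im_lt (hm : MapsTo F RH RH) (κ : ℝ) {z : ℂ} (hz : z ∈ RH) :
    |(log (F z) - log z - κ).im| < π := by
  have a := abs_lt.1 (arg_lt hz)
  have b := abs_lt.1 (arg_lt (hm hz))
  simp only [sub_im, log_im, ofReal_im]
  exact abs_lt.2 ⟨by linarith, by linarith⟩

theorem exists_Prim (hF : DifferentiableOn ℂ F RH) (hm : MapsTo F RH RH) (κ : ℝ) :
    ∃ Λ, Prim Λ fun z => log (F (exp z)) - log (exp z) - κ := by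
  obtain ⟨g, hg⟩ := exists_prim (Q := fun z => (log (F z) - log z - κ) / z)
    ((((hF.clog fun z hz => slit (hm hz)).sub
      (differentiableOn_id.clog fun z hz => slit hz)).sub_const _).div differentiableOn_id
      fun z hz => slitPlane_ne_zero (slit hz))
  exact ⟨fun z => g (exp z), fun z hz => ((hg _ (exp_mem hz)).comp z (hasDerivAt_exp z)).congr_deriv
    (div_mul_cancel₀ _ (exp_ne_zero z)), fun z hz => (im_lt hm κ (exp_mem hz)).le⟩

theorem sector {α : ℝ} (hj : ∀ K ε : ℝ, 0 < K → 0 < ε → ∃ R : ℝ,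
      ∀ w ∈ RH, ‖w‖ ≤ K * w.re → R ≤ ‖w‖ → ‖F w - α * w‖ ≤ ε * ‖w‖) {δ ε : ℝ} (hδ : 0 < δ)
    (hδ1 : δ ≤ 1 / 2) (hε : 0 < ε) : ∃ R : ℝ, ∀ z : ℂ, R ≤ z.re → |z.im| ≤ π / 2 - δ →
      exp z ∈ RH ∧ ‖F (exp z) - α * exp z‖ ≤ ε * ‖exp z‖ := by
  have p3 := Real.pi_gt_three
  have s0 : 0 < Real.sin δ := Real.sin_pos_of_pos_of_lt_pi hδ (by linarith)
  obtain ⟨R, hR⟩ := hj (Real.sin δ)⁻¹ ε (inv_pos.2 s0) hε
  refine ⟨R, fun z z1 z2 => ?_⟩
  have m := exp_mem (z2.trans_lt (by linarith))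
  refine ⟨m, hR _ m ?_ ?_⟩
  · rw [le_inv_mul_iff₀ s0, norm_exp, exp_re, mul_comm, ← Real.cos_pi_div_two_sub, ← Real.cos_abs z.im]
    exact mul_le_mul_of_nonneg_left
      (Real.cos_le_cos_of_nonneg_of_le_pi (abs_nonneg _) (by linarith) z2) (Real.exp_pos _).le
  · rw [norm_exp]
    linarith [Real.add_one_le_exp z.re]

theorem log_small (hm : MapsTo F RH RH) {α s : ℝ} (hα : 0 < α) (hs : s ≤ 1 / 2) {z : ℂ}
    (hz : z ∈ RH) (h : ‖F z - α * z‖ ≤ α * s / 2 * ‖z‖) :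
    ‖log (F z) - log z - Real.log α‖ ≤ s := by
  have z0 := slitPlane_ne_zero (slit hz)
  have a0 : (α : ℂ) ≠ 0 := ofReal_ne_zero.2 hα.ne'
  have a := abs_lt.1 (im_lt hm (Real.log α) hz)
  have e : exp (log (F z) - log z - Real.log α) = 1 + (F z - α * z) / (α * z) := by
    rw [exp_sub, exp_sub, exp_log z0, exp_log (slitPlane_ne_zero (slit (hm hz))), ← ofReal_exp,
      Real.exp_log hα]
    field_simp
    ring
  have b : ‖(F z - α * z) / (α * z)‖ ≤ s / 2 := by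
    rw [norm_div, norm_mul, norm_real, Real.norm_of_nonneg hα.le,
      div_le_iff₀ (mul_pos hα (norm_pos_iff.2 z0))]
    linarith
  rw [← log_exp a.1 a.2.le, e]
  linarith [norm_log_one_add_half_le_self (b.trans (by linarith)),
    norm_nonneg ((F z - α * z) / (α * z))]

theorem quot_tendsto (hP : Her P) (h : Orb P w) (h0 : (w 0).im = 0)
    (ht : Tendsto (fun t => ‖w t‖) atTop atTop) (hF : DifferentiableOn ℂ F RH)
    (hm : MapsTo F RH RH) (hb : ∀ s t, 0 ≤ s → s ≤ t → ‖F (w s)‖ ≤ ‖F (w t)‖) {α : ℝ} (hα : 0 ≤ α)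
    (hj : ∀ K ε : ℝ, 0 < K → 0 < ε → ∃ R : ℝ,
      ∀ w ∈ RH, ‖w‖ ≤ K * w.re → R ≤ ‖w‖ → ‖F w - α * w‖ ≤ ε * ‖w‖) :
    Tendsto (fun t => ‖F (w t)‖ / ‖w t‖) atTop (𝓝 α) := by
  have hc := h.crv hP h0
  have w0 : ∀ t, 0 ≤ t → w t ≠ 0 := fun t k => slitPlane_ne_zero (slit (h.mem t k))
  have F0 : ∀ z ∈ RH, 0 < ‖F z‖ := fun z k => norm_pos_iff.2 (slitPlane_ne_zero (slit (hm k)))
  have ht' : Tendsto (fun t => (log (w t)).re) atTop atTop := by
    simp only [log_re]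
    exact Real.tendsto_log_atTop.comp ht
  obtain ⟨Λ, hp⟩ := exists_Prim hF hm (Real.log α)
  obtain ⟨l, hl⟩ : ∃ l : ℂ → ℂ, l = fun z => log (F (exp z)) - log (exp z) - Real.log α :=
    ⟨_, rfl⟩
  rw [← hl] at hp
  have lre : ∀ t, 0 ≤ t → (l (log (w t))).re =
      Real.log ‖F (w t)‖ - Real.log ‖w t‖ - Real.log α := fun t k => by
    simp only [hl, exp_log (w0 t k), sub_re, log_re, ofReal_re]
  have mono : ∀ s t, 0 ≤ s → s ≤ t → (l (log (w s))).re + (log (w s)).re ≤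
      (l (log (w t))).re + (log (w t)).re := fun s t a b => by
    rw [lre s a, lre t (a.trans b), log_re, log_re]
    linarith [Real.log_le_log (F0 _ (h.mem s a)) (hb s t a b)]
  have e : (fun t => Real.exp ((l (log (w t))).re + Real.log α)) =ᶠ[atTop]
      fun t => ‖F (w t)‖ / ‖w t‖ := by
    filter_upwards [eventually_ge_atTop 0] with t k
    rw [lre t k, sub_add_cancel, Real.exp_sub, Real.exp_log (F0 _ (h.mem t k)),
      Real.exp_log (norm_pos_iff.2 (w0 t k))]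
  refine Tendsto.congr' e ?_
  have p4 := Real.pi_lt_four
  have p0 := Real.pi_pos
  rcases hα.eq_or_lt with rfl | a0
  · refine Real.tendsto_exp_atBot.comp (tendsto_atBot_add_const_right _ _ ?_)
    refine tendsto_atBot.2 fun M => ?_
    obtain ⟨R, hR⟩ := sector hj one_half_pos le_rfl (Real.exp_pos (M - 40))
    refine (upper hp hc ht' mono one_half_pos le_rfl (η := 20) (e := π) (m := M - 40)
      (R := R) (by norm_num) (fun z z1 z2 => ⟨?_, hp.bd z (by linarith)⟩) (by nlinarith)).mono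
      fun t k => by linarith
    obtain ⟨a, b⟩ := hR z z1 z2
    rw [ofReal_zero, zero_mul, sub_zero] at b
    have c := Real.log_le_log (F0 _ a) b
    rw [Real.log_mul (Real.exp_pos _).ne' (norm_ne_zero_iff.2 (exp_ne_zero z)), Real.log_exp] at c
    simp only [hl, sub_re, log_re, ofReal_re, Real.log_zero]
    linarith
  · suffices k : Tendsto (fun t => (l (log (w t))).re) atTop (𝓝 0) by
      have := (k.add_const (Real.log α)).rexp
      rwa [zero_add, Real.exp_log a0] at this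
    refine Metric.tendsto_nhds.2 fun ε hε => ?_
    obtain ⟨η, rfl⟩ : ∃ η, ε = 3 * η := ⟨ε / 3, by ring⟩
    have η0 : 0 < η := by linarith
    have c : Tendsto (fun s : ℝ => 4 * π * s * (1 + η) + s * π) (𝓝 0) (𝓝 0) :=
      Continuous.tendsto' (by fun_prop) _ _ (by simp)
    obtain ⟨s, ⟨s0, s1⟩, s2⟩ := (Filter.Eventually.and (Ioc_mem_nhdsGT (lt_min η0 one_half_pos))
      ((c.eventually_lt_const (pow_pos η0 2)).filter_mono nhdsWithin_le_nhds)).exists
    have s3 := s1.trans (min_le_left _ _)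
    have s4 := s1.trans (min_le_right _ _)
    obtain ⟨R, hR⟩ := sector hj s0 s4 (by positivity : 0 < α * s / 2)
    have n : ∀ z : ℂ, R ≤ z.re → |z.im| ≤ π / 2 - s → ‖l z‖ ≤ s := fun z z1 z2 =>
      hl ▸ log_small hm a0 s4 (hR z z1 z2).1 (hR z z1 z2).2
    filter_upwards [upper hp hc ht' mono s0 s4 η0 (fun z z1 z2 =>
      ⟨(re_le_norm _).trans (n z z1 z2), (abs_im_le_norm _).trans (n z z1 z2)⟩) s2,
      lower hp hc ht' mono s0 s4 η0 (fun z z1 z2 =>
      ⟨((neg_le_abs _).trans (abs_re_le_norm _)).trans (n z z1 z2),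
        (abs_im_le_norm _).trans (n z z1 z2)⟩) s2] with t k1 k2
    rw [Real.dist_0_eq_abs, abs_lt]
    constructor <;> linarith

theorem dom {φ ψ : ℝ → ℂ → ℂ} {τ σ : ℂ} {h g : ℂ → ℂ} (hφ : IsSemigroup φ) (hψ : IsSemigroup ψ)
    (hτ : IsDW φ τ) (hσ : IsDW ψ σ) (hh : IsKoenigs φ h) (hg : IsKoenigs ψ g) (h0 : h 0 = g 0)
    (hs : h '' ball 0 1 ⊆ g '' ball 0 1) : ∃ α : ℝ, 0 ≤ α ∧ α ≤ 1 ∧
      Tendsto (fun t => ‖cay σ (ψ t 0)‖ / ‖cay τ (φ t 0)‖) atTop (𝓝 α) ∧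
      (α = 1 → g '' ball 0 1 ⊆ h '' ball 0 1) := by
  have b0 : (0 : ℂ) ∈ ball (0 : ℂ) 1 := mem_ball_self one_pos
  obtain ⟨k, hk, gk⟩ := MP_1a2790_an.exists_inverse isOpen_ball hg.holo hg.inj
  obtain ⟨P, hP, oP⟩ := exists_flow hφ hτ
  obtain ⟨Q, hQ, oQ⟩ := exists_flow hψ hσ
  have m1 : MapsTo (fun z => h (cinv τ z)) RH (g '' ball 0 1) := fun z hz =>
    hs (mem_image_of_mem h (cinv_mem hτ.1 hz))
  have m2 : MapsTo k (g '' ball 0 1) (ball 0 1) := by
    rintro _ ⟨z, hz, rfl⟩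
    rwa [gk z hz]
  obtain ⟨F, eF⟩ : ∃ F : ℂ → ℂ, F = fun z => cay σ (k (h (cinv τ z))) := ⟨_, rfl⟩
  have hF : DifferentiableOn ℂ F RH := eF ▸ (diff_cay hσ.1).comp
    (hk.comp (hh.holo.comp diff_cinv fun z hz => cinv_mem hτ.1 hz) m1) (m2.comp m1)
  have hm : MapsTo F RH RH := fun z hz => eF ▸ cay_mem hσ.1 (m2 (m1 hz))
  have e : ∀ t, 0 ≤ t → F (cay τ (φ t 0)) = cay σ (ψ t 0) := fun t ht => by
    simp only [eF, cinv_cay hτ.1 (hφ.maps t ht b0), hh.abel t ht 0 b0, h0, ← hg.abel t ht 0 b0,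
      gk _ (hψ.maps t ht b0)]
  have e1 : F 1 = 1 := by
    simpa only [hφ.zero 0 b0, hψ.zero 0 b0, cay_zero hτ.1, cay_zero hσ.1] using e 0 le_rfl
  have r1 : (1 : ℂ) ∈ RH := by simp [mem_RH]
  obtain ⟨α, a0, a1, a2⟩ := jwc_RH hF hm
  refine ⟨α, a0, by simpa [e1] using a1 1 r1, ?_, ?_⟩
  · refine (quot_tendsto hP (oP 0 b0) (by simp [hφ.zero 0 b0, cay_zero hτ.1])
      (norm_tendsto hφ hτ b0) hF hm (fun s t hs hst => ?_) a0 a2).congr' ?_
    · rw [e s hs, e t (hs.trans hst)]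
      exact bk hQ (oQ 0 b0) (by simp [hψ.zero 0 b0, cay_zero hσ.1]) hs hst
    · filter_upwards [eventually_ge_atTop 0] with t ht
      rw [e t ht]
  · rintro rfl _ ⟨z, hz, rfl⟩
    have c := cay_mem hσ.1 hz
    have d := const_RH (F := fun z => F z - z) (hF.sub differentiableOn_id)
      (fun z hz => by simpa using a1 z hz) r1 (by simp [e1]) c
    simp only [e1, sub_self, sub_eq_zero] at d
    obtain ⟨u, hu, e2⟩ := m1 c
    replace e2 : g u = h (cinv τ (cay σ z)) := e2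
    have f := congrArg (cinv σ) d
    simp only [eF, ← e2, gk u hu, cinv_cay hσ.1 hu, cinv_cay hσ.1 hz] at f
    exact ⟨_, cinv_mem hτ.1 c, by rw [← e2, f]⟩

end Pool.Agent.MP_0641e2_an

end
end
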